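import Pool.Agent.Q99.FAL.Stm4

/-!
# Job SP of project FAL: real solutions are in the span of the integer ones
-/

set_option autoImplicit false

namespace Pool.Agent.Q299.FAL

open Finset
open Pool.Agent.Q99.FAL

/-- rational numbers with a common denominator -/
lemma exists_den' {ι : Type} [Fintype ι] (q : ι → ℚ) : ∃ (D : ℕ) (z : ι → ℤ), D ≠ 0 ∧
    ∀ j, (D : ℚ) * q j = z j := by
  classical
  refine ⟨∏ j, (q j).den, fun j => (q j).num * ∏ i ∈ univ.erase j, ((q i).den : ℤ), ?_, ?_⟩
  · exact Finset.prod_ne_zero_iff.2 fun j _ => (q j).den_nz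
  · intro j
    rw [← Finset.mul_prod_erase univ (fun i => (q i).den) (mem_univ j)]
    push_cast
    have h : (q j) * ((q j).den : ℚ) = (q j).num := Rat.mul_den_eq_num (q j)
    linear_combination (∏ i ∈ univ.erase j, ((q i).den : ℚ)) * h

/-- JOB SP -/
theorem task_SP : S_SP := by
  intro hSO D L hL x hx hout
  classical
  obtain ⟨-, -, hmul, hfun, hint⟩ := hSO
  let B := Module.Basis.ofVectorSpace ℚ ℝ
  obtain ⟨s, hs⟩ : ∃ s : Finset (Module.Basis.ofVectorSpaceIndex ℚ ℝ),
      s = univ.biUnion fun q : Fin D.length × Fin 6 => (B.repr (x q.1 q.2)).support := ⟨_, rfl⟩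
  have hrepr : ∀ k i, x k i = ∑ j ∈ s, ((B.repr (x k i) j : ℚ) : ℝ) * B j := by
    intro k i
    have h1 := B.linearCombination_repr (x k i)
    rw [Finsupp.linearCombination_apply,
      Finsupp.sum_of_support_subset (s := s) _ (by
        rw [hs]
        exact subset_biUnion_of_mem (fun q : Fin D.length × Fin 6 => (B.repr (x q.1 q.2)).support)
          (mem_univ (k, i))) _ (fun j _ => by rw [zero_smul])] at h1
    rw [← h1]
    refine Finset.sum_congr rfl fun j _ => ?_
    rw [h1, Rat.smul_def]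
  -- the rational solutions
  have hden : ∀ j, ∃ (n : ℕ) (z : Fin D.length → Fin 6 → ℤ), n ≠ 0 ∧
      ∀ k i, (n : ℚ) * B.repr (x k i) j = z k i := by
    intro j
    obtain ⟨n, z, hn, hz⟩ := exists_den' fun q : Fin D.length × Fin 6 => B.repr (x q.1 q.2) j
    exact ⟨n, fun k i => z (k, i), hn, fun k i => hz (k, i)⟩
  choose n z hn hz using hden
  have hmem : ∀ j, z j ∈ L := by
    intro j
    rw [hL]
    constructor
    · have h1 := hfun ℝ ℚ (B.coord j).toAddMonoidHom D x [0, 0] 0 hx
      have h2 := hmul ℚ D _ _ _ (n j : ℚ) h1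
      have h3 := hfun ℚ ℝ (Rat.castHom ℝ).toAddMonoidHom D _ _ _ h2
      have e0 : (Rat.castHom ℝ).toAddMonoidHom ((n j : ℚ) * (B.coord j).toAddMonoidHom 0) =
          ((0 : ℤ) : ℝ) := by
        rw [map_zero, mul_zero, map_zero, Int.cast_zero]
      have e1 : List.map (⇑(Rat.castHom ℝ).toAddMonoidHom) (List.map (fun x => (n j : ℚ) * x)
          (List.map (⇑(B.coord j).toAddMonoidHom) [0, 0])) =
          ([0, 0] : List ℤ).map fun g => (g : ℝ) := by
        simp
      have e2 : (fun (k : Fin D.length) (i : Fin 6) => (Rat.castHom ℝ).toAddMonoidHom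
          (((n j : ℚ) • fun (k : Fin D.length) (i : Fin 6) => (B.coord j).toAddMonoidHom (x k i)) k i)) =
          fun k i => (z j k i : ℝ) := by
        funext k i
        have e3 := hz j k i
        show (((n j : ℚ) * B.repr (x k i) j : ℚ) : ℝ) = _
        rw [e3]
        exact Rat.cast_intCast _
      rw [e0, e1, e2] at h3
      exact hint D (z j) [0, 0] 0 h3
    · intro k i ho
      have h1 := hz j k i
      rw [hout k i ho, map_zero] at h1
      simp only [Finsupp.coe_zero, Pi.zero_apply, mul_zero] at h1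
      exact_mod_cast h1.symm
  have hxe : x = ∑ j ∈ s, ((n j : ℝ)⁻¹ * B j) • toR (z j) := by
    funext k i
    rw [Finset.sum_apply, Finset.sum_apply, hrepr k i]
    refine Finset.sum_congr rfl fun j _ => ?_
    simp only [Pi.smul_apply, smul_eq_mul, toR]
    have h1 : ((z j k i : ℤ) : ℝ) = (n j : ℝ) * ((B.repr (x k i) j : ℚ) : ℝ) := by
      have := congrArg (fun q : ℚ => (q : ℝ)) (hz j k i)
      simp only [Rat.cast_mul, Rat.cast_natCast, Rat.cast_intCast] at this
      exact this.symm
    rw [h1]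
    have h2 : (n j : ℝ) ≠ 0 := by exact_mod_cast hn j
    field_simp
  rw [hxe]
  exact Submodule.sum_mem _ fun j _ => Submodule.smul_mem _ _
    (Submodule.subset_span ⟨z j, hmem j, rfl⟩)

end Pool.Agent.Q299.FAL
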