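import Pool.Agent.Q151.FAL.MAX

/-!
# Job CR of project FAL: the maximum is critical in all directions
-/

set_option autoImplicit false

namespace Pool.Agent.Q299.FAL

open Finset Filter Topology
open Pool.Agent.Q99.FAL

variable {c : ℕ}

/-- the functional -/
noncomputable def ell (a δ : Fin c → Fin 6 → ℝ) : ℝ :=
  ∑ b, ∑ i, (Real.log (Real.tan (Real.pi * a b i)) * δ b i +
    Real.log (Real.cos (Real.pi * a b i)) * dn (δ b) i)

lemma n1_add (x y : Fin 6 → ℝ) : n1 (x + y) = n1 x + n1 y := by
  unfold n1; simp only [Pi.add_apply]; ring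

lemma n2_add (x y : Fin 6 → ℝ) : n2 (x + y) = n2 x + n2 y := by
  unfold n2; simp only [Pi.add_apply]; ring

lemma n1_smul (r : ℝ) (x : Fin 6 → ℝ) : n1 (r • x) = r * n1 x := by
  unfold n1; simp only [Pi.smul_apply, smul_eq_mul]; ring

lemma n2_smul (r : ℝ) (x : Fin 6 → ℝ) : n2 (r • x) = r * n2 x := by
  unfold n2; simp only [Pi.smul_apply, smul_eq_mul]; ring

lemma dn_add (x y : Fin 6 → ℝ) (i : Fin 6) : dn (x + y) i = dn x i + dn y i := by
  unfold dn
  split_ifs
  · exact n2_add x y
  · exact n1_add x y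

lemma dn_smul (r : ℝ) (x : Fin 6 → ℝ) (i : Fin 6) : dn (r • x) i = r * dn x i := by
  unfold dn
  split_ifs
  · exact n2_smul r x
  · exact n1_smul r x

lemma ell_add (a δ δ' : Fin c → Fin 6 → ℝ) : ell a (δ + δ') = ell a δ + ell a δ' := by
  unfold ell
  rw [← sum_add_distrib]
  refine sum_congr rfl fun b _ => ?_
  rw [← sum_add_distrib]
  refine sum_congr rfl fun i _ => ?_
  rw [Pi.add_apply, dn_add, Pi.add_apply]
  ring

lemma ell_smul (a : Fin c → Fin 6 → ℝ) (r : ℝ) (δ : Fin c → Fin 6 → ℝ) :
    ell a (r • δ) = r * ell a δ := by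
  unfold ell
  rw [mul_sum]
  refine sum_congr rfl fun b _ => ?_
  rw [mul_sum]
  refine sum_congr rfl fun i _ => ?_
  rw [Pi.smul_apply, dn_smul, Pi.smul_apply, smul_eq_mul]
  ring

lemma ell_zero (a : Fin c → Fin 6 → ℝ) : ell a 0 = 0 := by
  have h := ell_smul a 0 0
  rw [zero_smul, zero_mul] at h
  exact h

lemma ell_sum (a : Fin c → Fin 6 → ℝ) (s : Finset (Fin c)) (v : Fin c → Fin c → Fin 6 → ℝ) :
    ell a (∑ b ∈ s, v b) = ∑ b ∈ s, ell a (v b) := by
  classical
  induction s using Finset.induction_on with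
  | empty => rw [sum_empty, sum_empty, ell_zero]
  | insert b s hb ih => rw [sum_insert hb, sum_insert hb, ell_add, ih]

lemma n12 {X : Net c} {p : Fin c → Fin 6 → ℝ} (hp : X.Good p) : ∀ δ ∈ X.LR, ∀ b,
    n1 (δ b) + n2 (δ b) = 0 := by
  intro δ hδ
  unfold Net.LR at hδ
  induction hδ using Submodule.span_induction with
  | mem x hx =>
    obtain ⟨δ, hδ, rfl⟩ := hx
    intro b
    have h := hp.sum δ hδ b
    unfold n1 n2 at h ⊢
    unfold toR
    exact_mod_cast h
  | zero => intro b; unfold n1 n2; simp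
  | add x y _ _ hx hy =>
    intro b
    rw [Pi.add_apply, n1_add, n2_add]
    linarith [hx b, hy b]
  | smul t x _ hx =>
    intro b
    rw [Pi.smul_apply, n1_smul, n2_smul, ← mul_add, hx b, mul_zero]

lemma step1 {X : Net c} {p a : Fin c → Fin 6 → ℝ} (hp : X.Good p) (ha : a ∈ X.Ang)
    (hz : ∀ b i, a b i = 0 ↔ p b i = 0) (hmax : ∀ a' ∈ X.Ang, fV a' ≤ fV a)
    {δ : Fin c → Fin 6 → ℝ} (hδ : δ ∈ X.LR) (h1 : ∀ b, n1 (δ b) = 0) (h2 : ∀ b, n2 (δ b) = 0) :
    ell a δ = 0 := by
  have hzero : ∀ b i, a b i = 0 → δ b i = 0 := fun b i h =>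
    MX.LR_zero (fun δ hδ => hp.zero δ hδ b i ((hz b i).1 h)) δ hδ
  have hhalf : ∀ b i, a b i = 1 / 2 → δ b i = 0 := by
    intro b i h
    obtain ⟨e1, e2⟩ := ha.2.2 b
    have g1 := h1 b
    have g2 := h2 b
    have a0 := ha.2.1 b 0
    have a1 := ha.2.1 b 1
    have a2 := ha.2.1 b 2
    have a3 := ha.2.1 b 3
    have a4 := ha.2.1 b 4
    have a5 := ha.2.1 b 5
    unfold n1 at e1 g1
    unfold n2 at e2 g2
    fin_cases i <;> simp only [Fin.zero_eta, Fin.mk_one, Fin.reduceFinMk] at h ⊢
    · have z1 := hzero b 1 (by linarith)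
      have z2 := hzero b 2 (by linarith)
      linarith
    · have z1 := hzero b 0 (by linarith)
      have z2 := hzero b 2 (by linarith)
      linarith
    · have z1 := hzero b 0 (by linarith)
      have z2 := hzero b 1 (by linarith)
      linarith
    · have z1 := hzero b 4 (by linarith)
      have z2 := hzero b 5 (by linarith)
      linarith
    · have z1 := hzero b 3 (by linarith)
      have z2 := hzero b 5 (by linarith)
      linarith
    · have z1 := hzero b 3 (by linarith)
      have z2 := hzero b 4 (by linarith)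
      linarith
  have hder : ∀ b i, HasDerivAt (fun t : ℝ => hh (a b i + t * δ b i))
      (-(Real.log (Real.tan (Real.pi * a b i)) * δ b i)) 0 := by
    intro b i
    by_cases hd : δ b i = 0
    · rw [hd, mul_zero, neg_zero]
      simp only [mul_zero, add_zero]
      exact hasDerivAt_const _ _
    · have p0 : 0 < a b i := lt_of_le_of_ne (ha.2.1 b i) fun h => hd (hzero b i h.symm)
      have p1 : a b i < 1 / 2 := lt_of_le_of_ne (MX.ang_le ha b i) fun h => hd (hhalf b i h)
      have d1 : HasDerivAt (fun t : ℝ => a b i + t * δ b i) (δ b i) 0 := by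
        have := ((hasDerivAt_id (0 : ℝ)).mul_const (δ b i)).const_add (a b i)
        rwa [one_mul] at this
      have d2 : HasDerivAt hh (-Real.log (Real.tan (Real.pi * a b i))) (a b i + 0 * δ b i) := by
        rw [zero_mul, add_zero]
        exact MX.hh_der p0 p1
      have d3 := d2.comp (0 : ℝ) d1
      rw [neg_mul] at d3
      exact d3
  have hF : HasDerivAt (fun t : ℝ => fV (a + t • δ))
      (∑ b, ∑ i, -(Real.log (Real.tan (Real.pi * a b i)) * δ b i)) 0 := by
    unfold fV
    simp only [Pi.add_apply, Pi.smul_apply, smul_eq_mul]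
    exact HasDerivAt.fun_sum fun b _ => HasDerivAt.fun_sum fun i _ => hder b i
  have hang : ∀ᶠ t in 𝓝 (0 : ℝ), a + t • δ ∈ X.Ang := by
    have hn : ∀ᶠ t in 𝓝 (0 : ℝ), ∀ b i, 0 ≤ a b i + t * δ b i := by
      rw [eventually_all]
      intro b
      rw [eventually_all]
      intro i
      by_cases h : a b i = 0
      · rw [h, hzero b i h]
        exact Eventually.of_forall fun t => by simp
      · have p0 : 0 < a b i := lt_of_le_of_ne (ha.2.1 b i) (Ne.symm h)
        have hc : Tendsto (fun t : ℝ => a b i + t * δ b i) (𝓝 0) (𝓝 (a b i + 0 * δ b i)) := by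
          have : Continuous fun t : ℝ => a b i + t * δ b i := by fun_prop
          exact this.tendsto 0
        rw [zero_mul, add_zero] at hc
        exact (hc.eventually (lt_mem_nhds p0)).mono fun t ht => ht.le
    filter_upwards [hn] with t ht
    refine ⟨?_, ?_, ?_⟩
    · have e : a + t • δ - toR X.a0 = (a - toR X.a0) + t • δ := by abel
      rw [e]
      exact X.LR.add_mem ha.1 (X.LR.smul_mem _ hδ)
    · intro b i
      exact ht b i
    · intro b
      rw [Pi.add_apply, Pi.smul_apply, n1_add, n1_smul, n2_add, n2_smul, h1 b, h2 b, mul_zero,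
        add_zero, add_zero]
      exact ha.2.2 b
  have hloc : IsLocalMax (fun t : ℝ => fV (a + t • δ)) 0 := by
    filter_upwards [hang] with t ht
    have h3 := hmax _ ht
    have e : a + (0 : ℝ) • δ = a := by rw [zero_smul, add_zero]
    rw [e]
    exact h3
  have h0 := hloc.hasDerivAt_eq_zero hF
  unfold ell
  have e : ∀ b i, dn (δ b) i = 0 := by
    intro b i
    unfold dn
    split_ifs
    · exact h2 b
    · exact h1 b
  simp only [e, mul_zero, add_zero]
  simp only [sum_neg_distrib] at h0
  linarith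

lemma eij_same (b : Fin c) (i j : Fin 6) : toR (eij b i j) b =
    fun k => (if k = i then (1 : ℝ) else 0) - (if k = j then 1 else 0) := by
  funext k
  unfold toR eij
  rw [if_pos rfl]
  push_cast
  rfl

lemma eij_ne {b b' : Fin c} (h : b' ≠ b) (i j : Fin 6) : toR (eij b i j) b' = 0 := by
  funext k
  unfold toR eij
  rw [if_neg h]
  simp

lemma ell_one (a δ : Fin c → Fin 6 → ℝ) (b : Fin c) (h : ∀ b', b' ≠ b → δ b' = 0) :
    ell a δ = ∑ i, (Real.log (Real.tan (Real.pi * a b i)) * δ b i +
      Real.log (Real.cos (Real.pi * a b i)) * dn (δ b) i) := by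
  unfold ell
  rw [sum_eq_single b]
  · intro b' _ hb'
    refine sum_eq_zero fun i _ => ?_
    rw [h b' hb']
    have : dn (0 : Fin 6 → ℝ) i = 0 := by
      have := dn_smul 0 0 i
      rwa [zero_smul, zero_mul] at this
    rw [this, Pi.zero_apply, mul_zero, mul_zero, add_zero]
  · intro h'; exact absurd (mem_univ _) h'

lemma ell14 (a : Fin c → Fin 6 → ℝ) (b : Fin c) : ell a (toR (eij b 1 4)) =
    Real.log (Real.tan (Real.pi * a b 1)) - Real.log (Real.tan (Real.pi * a b 4)) -
    Real.log (Real.cos (Real.pi * a b 0)) + Real.log (Real.cos (Real.pi * a b 1)) +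
    Real.log (Real.cos (Real.pi * a b 2)) + Real.log (Real.cos (Real.pi * a b 3)) -
    Real.log (Real.cos (Real.pi * a b 4)) - Real.log (Real.cos (Real.pi * a b 5)) := by
  rw [ell_one a _ b (fun b' h => eij_ne h 1 4), eij_same]
  simp only [Fin.sum_univ_six, dn, n1, n2]
  simp
  ring

lemma ell25 (a : Fin c → Fin 6 → ℝ) (b : Fin c) : ell a (toR (eij b 2 5)) =
    Real.log (Real.tan (Real.pi * a b 2)) - Real.log (Real.tan (Real.pi * a b 5)) -
    Real.log (Real.cos (Real.pi * a b 0)) + Real.log (Real.cos (Real.pi * a b 1)) +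
    Real.log (Real.cos (Real.pi * a b 2)) + Real.log (Real.cos (Real.pi * a b 3)) -
    Real.log (Real.cos (Real.pi * a b 4)) - Real.log (Real.cos (Real.pi * a b 5)) := by
  rw [ell_one a _ b (fun b' h => eij_ne h 2 5), eij_same]
  simp only [Fin.sum_univ_six, dn, n1, n2]
  simp
  ring

/-- the logarithm of `tan θ cos θ = cos (π / 2 - θ)` -/
lemma ltc {x y : ℝ} (h0 : 0 < x) (h1 : 0 ≤ y) (h : x + y = 1 / 2) :
    Real.log (Real.tan (Real.pi * x)) + Real.log (Real.cos (Real.pi * x)) =
      Real.log (Real.cos (Real.pi * y)) := by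
  have hpi := Real.pi_pos
  have e : Real.pi * y = Real.pi / 2 - Real.pi * x := by
    have : y = 1 / 2 - x := by linarith
    rw [this]; ring
  rw [e, Real.cos_pi_div_two_sub]
  rcases eq_or_lt_of_le h1 with h2 | h2
  · have hx : x = 1 / 2 := by linarith
    have e2 : Real.pi * x = Real.pi / 2 := by rw [hx]; ring
    rw [e2, Real.tan_pi_div_two, Real.cos_pi_div_two, Real.sin_pi_div_two]
    simp
  · have s1 : 0 < Real.sin (Real.pi * x) :=
      Real.sin_pos_of_pos_of_lt_pi (by positivity) (by nlinarith)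
    have s2 : 0 < Real.cos (Real.pi * x) :=
      Real.cos_pos_of_mem_Ioo ⟨by nlinarith, by nlinarith⟩
    rw [Real.tan_eq_sin_div_cos, Real.log_div s1.ne' s2.ne']
    ring

/-- JOB CR -/
theorem task_CR : S_CR := by
  intro c X p hp a ha hz hmax δ hδ
  have hpi := Real.pi_pos
  change ell a δ = 0
  classical
  obtain ⟨e, he⟩ : ∃ e : Fin c → Fin c → Fin 6 → ℤ,
    e = fun b => if p b 1 ≠ 0 then eij b 1 4 else eij b 2 5 := ⟨_, rfl⟩
  have hmem14 : ∀ b, p b 1 ≠ 0 → toR (eij b 1 4) ∈ X.LR := fun b h =>
    Submodule.subset_span ⟨_, hp.z1 b h, rfl⟩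
  have hmem25 : ∀ b, p b 2 ≠ 0 → toR (eij b 2 5) ∈ X.LR := fun b h =>
    Submodule.subset_span ⟨_, hp.z2 b h, rfl⟩
  have hemem : ∀ b, toR (e b) ∈ X.LR := by
    intro b
    rw [he]
    simp only
    split_ifs with h
    · exact hmem14 b h
    · exact hmem25 b fun h2 => hp.s3 b ⟨not_not.1 h, h2⟩
  -- the functional at the vectors `e b`
  have hell : ∀ b, ell a (toR (e b)) = 0 := by
    intro b
    obtain ⟨e1, e2⟩ := ha.2.2 b
    have a0 := ha.2.1 b 0
    have a1 := ha.2.1 b 1
    have a2 := ha.2.1 b 2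
    have a3 := ha.2.1 b 3
    have a4 := ha.2.1 b 4
    have a5 := ha.2.1 b 5
    unfold n1 at e1
    unfold n2 at e2
    rw [he]
    simp only
    split_ifs with h
    · have q1 : 0 < a b 1 := lt_of_le_of_ne a1 fun h' => h ((hz b 1).1 h'.symm)
      have q4 : 0 < a b 4 := lt_of_le_of_ne a4 fun h' =>
        h ((hp.s1 b).2 ((hz b 4).1 h'.symm))
      rw [ell14]
      by_cases h2 : p b 2 = 0
      · have z2 : a b 2 = 0 := (hz b 2).2 h2
        have z5 : a b 5 = 0 := (hz b 5).2 ((hp.s2 b).1 h2)
        have l1 := ltc q1 a0 (by linarith)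
        have l4 := ltc q4 a3 (by linarith)
        rw [z2, z5, mul_zero, Real.cos_zero, Real.log_one]
        linarith
      · have q2 : 0 < a b 2 := lt_of_le_of_ne a2 fun h' => h2 ((hz b 2).1 h'.symm)
        have q5 : 0 < a b 5 := lt_of_le_of_ne a5 fun h' =>
          h2 ((hp.s2 b).2 ((hz b 5).1 h'.symm))
        have hs := step1 hp ha hz hmax
          (δ := toR (eij b 1 4) + (-1 : ℝ) • toR (eij b 2 5))
          (X.LR.add_mem (hmem14 b h) (X.LR.smul_mem _ (hmem25 b h2)))
          (by
            intro b'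
            rw [Pi.add_apply, Pi.smul_apply, n1_add, n1_smul]
            by_cases hb : b' = b
            · rw [hb, eij_same, eij_same]
              simp [n1]
            · rw [eij_ne hb, eij_ne hb]
              simp [n1])
          (by
            intro b'
            rw [Pi.add_apply, Pi.smul_apply, n2_add, n2_smul]
            by_cases hb : b' = b
            · rw [hb, eij_same, eij_same]
              simp [n2]
            · rw [eij_ne hb, eij_ne hb]
              simp [n2])
        rw [ell_add, ell_smul, ell14, ell25] at hs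
        have sp : ∀ {x : ℝ}, 0 < x → x < 1 / 2 → 0 < Real.sin (Real.pi * x) := fun h0 h1 =>
          Real.sin_pos_of_pos_of_lt_pi (by positivity) (by nlinarith)
        have cp : ∀ {x : ℝ}, 0 ≤ x → x < 1 / 2 → 0 < Real.cos (Real.pi * x) := fun h0 h1 =>
          Real.cos_pos_of_mem_Ioo ⟨by nlinarith, by nlinarith⟩
        have s1 := sp q1 (by linarith)
        have s2 := sp q2 (by linarith)
        have s4 := sp q4 (by linarith)
        have s5 := sp q5 (by linarith)
        have c0 := cp a0 (by linarith)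
        have c1 := cp a1 (by linarith)
        have c2 := cp a2 (by linarith)
        have c3 := cp a3 (by linarith)
        have c4 := cp a4 (by linarith)
        have c5 := cp a5 (by linarith)
        have f0 : Real.cos (Real.pi * a b 0) = Real.sin (Real.pi * a b 1) * Real.cos (Real.pi * a b 2) +
            Real.cos (Real.pi * a b 1) * Real.sin (Real.pi * a b 2) := by
          rw [← Real.sin_add, ← Real.cos_pi_div_two_sub]
          congr 1
          have : a b 0 = 1 / 2 - a b 1 - a b 2 := by linarith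
          rw [this]; ring
        have f3 : Real.cos (Real.pi * a b 3) = Real.sin (Real.pi * a b 4) * Real.cos (Real.pi * a b 5) +
            Real.cos (Real.pi * a b 4) * Real.sin (Real.pi * a b 5) := by
          rw [← Real.sin_add, ← Real.cos_pi_div_two_sub]
          congr 1
          have : a b 3 = 1 / 2 - a b 4 - a b 5 := by linarith
          rw [this]; ring
        simp only [Real.tan_eq_sin_div_cos] at hs ⊢
        rw [Real.log_div s1.ne' c1.ne', Real.log_div s4.ne' c4.ne', Real.log_div s2.ne' c2.ne',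
          Real.log_div s5.ne' c5.ne'] at hs
        rw [Real.log_div s1.ne' c1.ne', Real.log_div s4.ne' c4.ne']
        -- the relation of step 1
        have r1 : Real.sin (Real.pi * a b 1) * Real.sin (Real.pi * a b 5) *
            (Real.cos (Real.pi * a b 4) * Real.cos (Real.pi * a b 2)) =
            Real.sin (Real.pi * a b 4) * Real.sin (Real.pi * a b 2) *
            (Real.cos (Real.pi * a b 1) * Real.cos (Real.pi * a b 5)) := by
          apply Real.log_injOn_pos (Set.mem_Ioi.2 (by positivity)) (Set.mem_Ioi.2 (by positivity))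
          rw [Real.log_mul (by positivity) (by positivity), Real.log_mul s1.ne' s5.ne',
            Real.log_mul c4.ne' c2.ne', Real.log_mul (by positivity) (by positivity),
            Real.log_mul s4.ne' s2.ne', Real.log_mul c1.ne' c5.ne']
          linarith
        have r2 : Real.sin (Real.pi * a b 1) * Real.cos (Real.pi * a b 2) * Real.cos (Real.pi * a b 3) =
            Real.sin (Real.pi * a b 4) * Real.cos (Real.pi * a b 5) * Real.cos (Real.pi * a b 0) := by
          rw [f0, f3]
          linear_combination r1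
        have r3 := congrArg Real.log r2
        rw [Real.log_mul (by positivity) c3.ne', Real.log_mul s1.ne' c2.ne',
          Real.log_mul (by positivity) c0.ne', Real.log_mul s4.ne' c5.ne'] at r3
        linarith
    · have h1 : p b 1 = 0 := not_not.1 h
      have h2 : p b 2 ≠ 0 := fun h2 => hp.s3 b ⟨h1, h2⟩
      have z1 : a b 1 = 0 := (hz b 1).2 h1
      have z4 : a b 4 = 0 := (hz b 4).2 ((hp.s1 b).1 h1)
      have q2 : 0 < a b 2 := lt_of_le_of_ne a2 fun h' => h2 ((hz b 2).1 h'.symm)
      have q5 : 0 < a b 5 := lt_of_le_of_ne a5 fun h' =>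
        h2 ((hp.s2 b).2 ((hz b 5).1 h'.symm))
      rw [ell25]
      have l2 := ltc q2 a0 (by linarith)
      have l5 := ltc q5 a3 (by linarith)
      rw [z1, z4, mul_zero, Real.cos_zero, Real.log_one]
      linarith
  -- subtraction
  obtain ⟨v, hv⟩ : ∃ v : Fin c → Fin 6 → ℝ, v = ∑ b, n1 (δ b) • toR (e b) := ⟨_, rfl⟩
  have hvmem : v ∈ X.LR := by
    rw [hv]
    exact X.LR.sum_mem fun b _ => X.LR.smul_mem _ (hemem b)
  have hen1 : ∀ b b', n1 (toR (e b) b') = if b' = b then 1 else 0 := by
    intro b b'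
    rw [he]
    by_cases hb : b' = b
    · rw [if_pos hb, hb]
      simp only
      split_ifs <;> rw [eij_same] <;> simp [n1]
    · rw [if_neg hb]
      simp only
      split_ifs <;> rw [eij_ne hb] <;> simp [n1]
  have hvn1 : ∀ b', n1 (v b') = n1 (δ b') := by
    intro b'
    have h1 : n1 (v b') = ∑ b, n1 (δ b) * n1 (toR (e b) b') := by
      rw [hv]
      unfold n1
      simp only [Finset.sum_apply, Pi.smul_apply, smul_eq_mul, mul_add, sum_add_distrib]
    rw [h1, sum_eq_single b']
    · rw [hen1, if_pos rfl, mul_one]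
    · intro b _ hb
      rw [hen1, if_neg hb.symm, mul_zero]
    · intro h; exact absurd (mem_univ _) h
  have hs := step1 hp ha hz hmax (δ := δ + (-1 : ℝ) • v)
    (X.LR.add_mem hδ (X.LR.smul_mem _ hvmem))
    (by
      intro b
      rw [Pi.add_apply, Pi.smul_apply, n1_add, n1_smul, hvn1]
      ring)
    (by
      intro b
      rw [Pi.add_apply, Pi.smul_apply, n2_add, n2_smul]
      have g1 := n12 hp δ hδ b
      have g2 := n12 hp v hvmem b
      rw [hvn1] at g2
      linarith)
  rw [ell_add, ell_smul, hv, ell_sum] at hs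
  have h0 : ∑ b, ell a (n1 (δ b) • toR (e b)) = 0 := by
    refine sum_eq_zero fun b _ => ?_
    rw [ell_smul, hell b, mul_zero]
  rw [h0, mul_zero, add_zero] at hs
  exact hs

end Pool.Agent.Q299.FAL
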