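import Pool.Agent.Q99.FAL.Stm3

/-!
# Job LB of project FAL: a basis of a lattice of integer vectors
-/

set_option autoImplicit false

namespace Pool.Agent.Q299.FAL

open Finset
open Pool.Agent.Q99.FAL

/-- rational numbers with a common denominator -/
lemma exists_den {n : ℕ} (q : Fin n → ℚ) : ∃ (D : ℕ) (z : Fin n → ℤ), D ≠ 0 ∧
    ∀ j, (D : ℚ) * q j = z j := by
  classical
  refine ⟨∏ j, (q j).den, fun j => (q j).num * ∏ i ∈ univ.erase j, ((q i).den : ℤ), ?_, ?_⟩
  · exact Finset.prod_ne_zero_iff.2 fun j _ => (q j).den_nz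
  · intro j
    rw [← Finset.mul_prod_erase univ (fun i => (q i).den) (mem_univ j)]
    push_cast
    have h : (q j) * ((q j).den : ℚ) = (q j).num := Rat.mul_den_eq_num (q j)
    linear_combination (∏ i ∈ univ.erase j, ((q i).den : ℚ)) * h

lemma sum_app {c n : ℕ} (t : Fin n → ℤ) (E : Fin n → Fin c → Fin 6 → ℤ) (b : Fin c) (i : Fin 6) :
    (∑ j, t j • E j) b i = ∑ j, t j * E j b i := by
  simp only [Finset.sum_apply, Pi.smul_apply, smul_eq_mul]

lemma sum_appR {c n : ℕ} (t : Fin n → ℝ) (E : Fin n → Fin c → Fin 6 → ℤ) (b : Fin c) (i : Fin 6) :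
    (∑ j, t j • toR (E j)) b i = ∑ j, t j * (E j b i : ℝ) := by
  simp only [Finset.sum_apply, Pi.smul_apply, smul_eq_mul, toR]

/-- integral independence gives real independence -/
lemma real_indep {c n : ℕ} (E : Fin n → Fin c → Fin 6 → ℤ)
    (hE : ∀ t : Fin n → ℤ, (∑ j, t j • E j) = 0 → t = 0) (τ : Fin n → ℝ)
    (h : (∑ j, τ j • toR (E j)) = 0) : τ = 0 := by
  by_contra hne
  obtain ⟨j0, hj0⟩ : ∃ j, τ j ≠ 0 := by
    by_contra hh
    push Not at hh
    exact hne (funext hh)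
  obtain ⟨f, hf⟩ : ∃ f : ℝ →ₗ[ℚ] ℚ, f (τ j0) ≠ 0 := by
    by_contra hh
    push Not at hh
    exact hj0 ((Module.forall_dual_apply_eq_zero_iff ℚ (τ j0)).1 hh)
  obtain ⟨D, z, hD, hz⟩ := exists_den fun j => f (τ j)
  have h1 : (∑ j, z j • E j) = 0 := by
    funext b i
    rw [sum_app]
    have h2 : (∑ j, τ j * (E j b i : ℝ)) = 0 := by rw [← sum_appR, h]; rfl
    have h3 : f (∑ j, τ j * (E j b i : ℝ)) = 0 := by rw [h2, map_zero]
    have h4 : ∀ j, f (τ j * (E j b i : ℝ)) = f (τ j) * (E j b i : ℚ) := by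
      intro j
      have : τ j * (E j b i : ℝ) = (E j b i : ℤ) • τ j := by rw [zsmul_eq_mul, mul_comm]
      rw [this, map_zsmul, zsmul_eq_mul, mul_comm]
    rw [map_sum, Finset.sum_congr rfl fun j _ => h4 j] at h3
    have h5 : ((∑ j, z j * E j b i : ℤ) : ℚ) = 0 := by
      push_cast
      have h6 : ∀ j, (z j : ℚ) * (E j b i : ℚ) = D * (f (τ j) * (E j b i : ℚ)) := by
        intro j
        rw [← hz j]
        ring
      rw [Finset.sum_congr rfl fun j _ => h6 j, ← Finset.mul_sum, h3, mul_zero]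
    exact_mod_cast h5
  have h7 := congrFun (hE z h1) j0
  have h8 := hz j0
  rw [h7] at h8
  simp only [Pi.zero_apply, Int.cast_zero, mul_eq_zero, Nat.cast_eq_zero] at h8
  rcases h8 with h8 | h8
  · exact hD h8
  · exact hf h8

/-- JOB LB -/
theorem task_LB : S_LB := by
  intro c X
  obtain ⟨b⟩ : Nonempty (Module.Basis (Fin (Module.finrank ℤ X.L)) ℤ X.L) :=
    ⟨Module.finBasis ℤ X.L⟩
  have hsum : ∀ t : Fin (Module.finrank ℤ X.L) → ℤ,
      (∑ j, t j • (b j : Fin c → Fin 6 → ℤ)) = ((∑ j, t j • b j : X.L) : Fin c → Fin 6 → ℤ) := by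
    intro t
    rw [Submodule.coe_sum]
    rfl
  have hindep : ∀ t : Fin (Module.finrank ℤ X.L) → ℤ,
      (∑ j, t j • (b j : Fin c → Fin 6 → ℤ)) = 0 → t = 0 := by
    intro t ht
    rw [hsum] at ht
    have h1 : (∑ j, t j • b j : X.L) = 0 := Subtype.ext ht
    funext j
    exact Fintype.linearIndependent_iff.1 b.linearIndependent t h1 j
  refine ⟨fun j => (b j : Fin c → Fin 6 → ℤ), ?_, ?_, ?_, ?_⟩
  · intro t
    rw [hsum]
    exact Submodule.coe_mem _
  · intro a ha
    refine ⟨fun j => b.repr ⟨a, ha⟩ j, ?_, ?_⟩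
    · simp only
      rw [hsum, b.sum_repr]
    · intro t ht
      simp only at ht
      rw [hsum] at ht
      have h1 : (⟨a, ha⟩ : X.L) = ∑ j, t j • b j := Subtype.ext ht
      funext j
      rw [h1, b.repr_sum_self]
  · exact real_indep _ hindep
  · intro x hx
    unfold Net.LR at hx
    induction hx using Submodule.span_induction with
    | mem x hx =>
      obtain ⟨a, ha, rfl⟩ := hx
      refine ⟨fun j => (b.repr ⟨a, ha⟩ j : ℝ), ?_⟩
      have h1 : a = ∑ j, (b.repr ⟨a, ha⟩ j) • (b j : Fin c → Fin 6 → ℤ) := by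
        rw [hsum, b.sum_repr]
      funext k i
      rw [sum_appR]
      have h2 := congrFun (congrFun h1 k) i
      rw [sum_app] at h2
      show ((a k i : ℤ) : ℝ) = _
      rw [h2]
      push_cast
      rfl
    | zero => exact ⟨0, by simp⟩
    | add x y _ _ ihx ihy =>
      obtain ⟨τ, rfl⟩ := ihx
      obtain ⟨τ', rfl⟩ := ihy
      exact ⟨τ + τ', by simp only [Pi.add_apply, add_smul, Finset.sum_add_distrib]⟩
    | smul r x _ ih =>
      obtain ⟨τ, rfl⟩ := ih
      exact ⟨r • τ, by simp only [Pi.smul_apply, smul_eq_mul, mul_smul, Finset.smul_sum]⟩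

end Pool.Agent.Q299.FAL
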