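import Pool.Agent.Q99.FAL.Stm4

/-!
# Job CN of project FAL: the number of the angles `≠ 0, 1/2`
-/

set_option autoImplicit false

namespace Pool.Agent.Q299.FAL

open Finset
open Pool.Agent.Q99.FAL

lemma sol_sum {R : Type} [CommRing R] : ∀ (D : List Pc) (a : Fin D.length → Fin 6 → R)
    (G : List R) (u : R), Sol D a G u → ∀ k, n1 (a k) + n2 (a k) = u := by
  intro D
  induction D with
  | nil => intro a G u _ k; exact k.elim0
  | cons P D ih =>
      intro a G u h k
      refine Fin.cases h.1 (fun k => ?_) k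
      exact ih (fun k => a k.succ) _ _ h.2.2 k

/-- the first other angle of the triangle -/
def oa : Fin 6 → Fin 6 := ![1, 0, 0, 4, 3, 3]

/-- the second other angle of the triangle -/
def ob : Fin 6 → Fin 6 := ![2, 2, 1, 5, 5, 4]

open Classical in
/-- the number of the angles whose triangle has two other outer angles -/
noncomputable def cnt (D : List Pc) (n : ℕ) : ℕ :=
  ∑ k : Fin D.length,
    (univ.filter fun i : Fin 6 => Out D n k (c6 (oa i)) ∧ Out D n k (c6 (ob i))).card

lemma out_zero (P : Pc) (D : List Pc) (n : ℕ) (j : Fin 4) : Out (P :: D) n (0 : Fin (D.length + 1)) j ↔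
    ((P.p = 0 ∧ j = lc P.ty) ∨ (P.p + wd P.ty = n ∧ j = rc P.ty)) := Iff.rfl

lemma out_succ (P : Pc) (D : List Pc) (n : ℕ) (k : Fin D.length) (j : Fin 4) :
    Out (P :: D) n (k.succ : Fin (D.length + 1)) j ↔ Out D (up P.ty n) k j := Iff.rfl

open Classical in
lemma first_one (P : Pc) (D : List Pc) (n : ℕ) (h1 : P.p = 0) (h2 : P.p + wd P.ty = n)
    (h3 : Odd n) :
    (univ.filter fun i : Fin 6 => Out (P :: D) n (0 : Fin (D.length + 1)) (c6 (oa i)) ∧
      Out (P :: D) n (0 : Fin (D.length + 1)) (c6 (ob i))).card = 1 := by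
  have e : (univ.filter fun i : Fin 6 => Out (P :: D) n (0 : Fin (D.length + 1)) (c6 (oa i)) ∧
      Out (P :: D) n (0 : Fin (D.length + 1)) (c6 (ob i))) =
      univ.filter fun i : Fin 6 => (c6 (oa i) = lc P.ty ∨ c6 (oa i) = rc P.ty) ∧
        (c6 (ob i) = lc P.ty ∨ c6 (ob i) = rc P.ty) := by
    ext i
    simp only [out_zero, h1, true_and, mem_filter, mem_univ]
    rw [h1] at h2
    simp only [h2, true_and]
  rw [e]
  have h4 : P.ty ≠ .V ∧ P.ty ≠ .H := by
    constructor
    · intro h
      rw [h1, h] at h2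
      subst h2
      revert h3
      decide
    · intro h
      rw [h1, h] at h2
      subst h2
      revert h3
      decide
  obtain ⟨h4, h5⟩ := h4
  generalize P.ty = T at h4 h5
  cases T with
  | V => exact absurd rfl h4
  | H => exact absurd rfl h5
  | YL => decide
  | YR => decide
  | LL => decide
  | LR => decide

lemma no_two (i : Fin 6) : c6 (oa i) ≠ c6 (ob i) := by
  revert i
  decide

open Classical in
lemma first_zero (P : Pc) (D : List Pc) (n : ℕ) (h : ¬ (P.p = 0 ∧ P.p + wd P.ty = n)) :
    (univ.filter fun i : Fin 6 => Out (P :: D) n (0 : Fin (D.length + 1)) (c6 (oa i)) ∧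
      Out (P :: D) n (0 : Fin (D.length + 1)) (c6 (ob i))).card = 0 := by
  rw [Finset.card_eq_zero, Finset.filter_eq_empty_iff]
  intro i _
  simp only [out_zero]
  by_cases h1 : P.p = 0
  · have h2 : ¬ P.p + wd P.ty = n := fun h2 => h ⟨h1, h2⟩
    rintro ⟨h3 | h3, h4 | h4⟩
    · exact no_two i (h3.2.trans h4.2.symm)
    · exact h2 h4.1
    · exact h2 h3.1
    · exact h2 h4.1
  · rintro ⟨h3 | h3, h4 | h4⟩
    · exact h1 h3.1
    · exact h1 h3.1
    · exact h1 h4.1
    · exact no_two i (h3.2.trans h4.2.symm)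

lemma cnt_cons (P : Pc) (D : List Pc) (n : ℕ) : (cnt (P :: D) n) = (by
    classical exact (univ.filter fun i : Fin 6 => Out (P :: D) n (0 : Fin (D.length + 1)) (c6 (oa i)) ∧
      Out (P :: D) n (0 : Fin (D.length + 1)) (c6 (ob i))).card) + cnt D (up P.ty n) := by
  unfold cnt
  exact Fin.sum_univ_succ (n := D.length) _

lemma odd_up (P : Pc) (n : ℕ) (h : P.p + wd P.ty ≤ n) (h2 : Odd n) : Odd (up P.ty n) := by
  obtain ⟨ty, p, σ, m⟩ := P
  obtain ⟨t, rfl⟩ := h2
  cases ty <;> simp only [up, wd] at h ⊢
  · exact ⟨t, rfl⟩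
  · exact ⟨t, rfl⟩
  · exact ⟨t + 1, by ring⟩
  · exact ⟨t + 1, by ring⟩
  · exact ⟨t - 1, by omega⟩
  · exact ⟨t - 1, by omega⟩

lemma cnt_three : ∀ (D : List Pc) (n : ℕ), Odd n → n ≠ 1 → Val D n → Pri D n → cnt D n = 1 := by
  intro D
  induction D with
  | nil => intro n _ h1 h2; exact absurd h2 h1
  | cons P D ih =>
      intro n hn h1 hv hp
      rw [cnt_cons]
      have ho := odd_up P n hv.1 hn
      by_cases hu : up P.ty n = 1
      · have hD : D = [] := by
          rcases hp.1 with h | h
          · exact h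
          · exact absurd hu h
        subst hD
        have h3 : P.p = 0 ∧ P.p + wd P.ty = n := by
          have h4 := hv.1
          generalize P.ty = T at hu h4 ⊢
          obtain ⟨t, rfl⟩ := hn
          cases T <;> simp only [up, wd] at hu h4 ⊢ <;> omega
        rw [first_one P [] n h3.1 h3.2 hn]
        rfl
      · rw [ih _ ho hu hv.2 hp.2, first_zero]
        rintro ⟨h3, h4⟩
        apply hu
        generalize P.ty = T at h4 ⊢
        obtain ⟨t, rfl⟩ := hn
        cases T <;> simp only [up, wd] at h4 ⊢ <;> omega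

lemma cnt_one (D : List Pc) (hv : Val D 1) (hp : Pri D 1) (hD : D ≠ []) : cnt D 1 = 2 := by
  cases D with
  | nil => exact absurd rfl hD
  | cons P D =>
      rw [cnt_cons]
      have ho := odd_up P 1 hv.1 (by decide)
      have h4 := hv.1
      have h3 : P.p = 0 ∧ P.p + wd P.ty = 1 ∧ up P.ty 1 ≠ 1 := by
        generalize P.ty = T at h4 ⊢
        cases T <;> simp only [up, wd] at h4 ⊢ <;> omega
      rw [first_one P D 1 h3.1 h3.2.1 (by decide), cnt_three _ _ ho h3.2.2 hv.2 hp.2]

/-- JOB CN -/
theorem task_CN : S_CN := by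
  intro hOZ D hv hp hD p hP
  classical
  have hz : ∀ k i, p k i = 0 ↔ Out D 1 k (c6 i) := by
    intro k i
    constructor
    · intro h
      by_contra h2
      exact (hP.pos k i h2).ne' h
    · intro h
      exact hOZ.1 D 1 hv p [0, 0] 1 rfl (by
        intro g hg
        simp only [List.mem_cons, List.not_mem_nil, or_false, or_self] at hg
        rw [hg]) hP.nonneg hP.sol k i h
  have hs := sol_sum D p [0, 0] 1 hP.sol
  have hh : ∀ k i, p k i = 1 / 2 ↔ (p k (oa i) = 0 ∧ p k (ob i) = 0) := by
    intro k i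
    have h1 := hP.half k
    have h2 : n2 (p k) = 1 / 2 := by have := hs k; linarith
    have h0 := hP.nonneg k
    simp only [n1, n2] at h1 h2
    have g0 := h0 0
    have g1 := h0 1
    have g2 := h0 2
    have g3 := h0 3
    have g4 := h0 4
    have g5 := h0 5
    fin_cases i <;> simp only [oa, ob] <;> constructor <;> intro h <;>
      simp at h ⊢ <;> first | (constructor <;> linarith) | (obtain ⟨ha, hb⟩ := h; linarith)
  have hc : Nat.card {q : Fin D.length × Fin 6 // p q.1 q.2 = 1 / 2} = 2 := by
    rw [← cnt_one D hv hp hD, Nat.card_eq_fintype_card, Fintype.card_subtype]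
    unfold cnt
    rw [Finset.card_filter, Fintype.sum_prod_type]
    refine Finset.sum_congr rfl fun k _ => ?_
    rw [Finset.card_filter]
    refine Finset.sum_congr rfl fun i _ => ?_
    simp only [hh, hz]
  have hd : Nat.card {q : Fin D.length × Fin 6 // ¬ Out D 1 q.1 (c6 q.2)} =
      nV p + Nat.card {q : Fin D.length × Fin 6 // p q.1 q.2 = 1 / 2} := by
    unfold nV
    rw [Nat.card_eq_fintype_card, Nat.card_eq_fintype_card, Nat.card_eq_fintype_card,
      Fintype.card_subtype, Fintype.card_subtype, Fintype.card_subtype,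
      ← Finset.card_union_of_disjoint]
    · congr 1
      ext q
      simp only [mem_filter, mem_univ, true_and, mem_union, ← hz]
      constructor
      · intro h
        by_cases h2 : p q.1 q.2 = 1 / 2
        · exact Or.inr h2
        · exact Or.inl ⟨h, h2⟩
      · rintro (h | h)
        · exact h.1
        · rw [h]; norm_num
    · rw [Finset.disjoint_left]
      intro q h1 h2
      simp only [mem_filter, mem_univ, true_and] at h1 h2
      exact h1.2 h2
  rw [hd, hc]

end Pool.Agent.Q299.FAL
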