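import Pool.Agent.Q99.FAL.Stm4

/-!
# Job DIM of project FAL: the rank of the lattice of a diagram
-/

set_option autoImplicit false

namespace Pool.Agent.Q299.FAL

open Finset
open Pool.Agent.Q99.FAL

/-! ### functoriality -/

section Fun

variable {R R' : Type} [AddCommMonoid R] [AddCommMonoid R']

lemma stp_map (f : R →+ R') (T : Ty) (p : ℕ) (q : Fin 4 → R) (G : List R) :
    stp T p (fun j => f (q j)) (G.map f) = (stp T p q G).map f := by
  unfold stp
  rw [← List.map_drop, ← List.map_take]
  rcases G.drop p with _ | ⟨x, _ | ⟨x', _ | ⟨x'', _ | ⟨x''', r⟩⟩⟩⟩ <;> cases T <;> simp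

lemma cls_map (f : R →+ R') (T : Ty) (p : ℕ) (q : Fin 4 → R) (G : List R) :
    cls T p (fun j => f (q j)) (G.map f) = (cls T p q G).map f := by
  unfold cls
  rw [← List.map_drop]
  rcases G.drop p with _ | ⟨x, _ | ⟨x', _ | ⟨x'', r⟩⟩⟩ <;> cases T <;> simp

lemma cor_map (f : R →+ R') (x : Fin 6 → R) : cor (fun i => f (x i)) = fun j => f (cor x j) := by
  funext j
  fin_cases j <;> simp [cor]

lemma clo_map (f : R →+ R') : ∀ (D : List Pc) (a : Fin D.length → Fin 6 → R) (G : List R),
    clo D (fun k i => f (a k i)) (G.map f) = (clo D a G).map f := by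
  intro D
  induction D with
  | nil => intro a G; rfl
  | cons P D ih =>
      intro a G
      simp only [clo]
      rw [List.map_append, ← ih, ← cls_map, ← stp_map]
      rw [← cor_map]

end Fun

/-! ### the outer gaps -/

lemma stp_len {R : Type} [Add R] (T : Ty) (p n : ℕ) (q : Fin 4 → R) (G : List R)
    (hG : G.length = n + 1) (h : p + wd T ≤ n) : (stp T p q G).length = up T n + 1 := by
  unfold stp
  have h1 : (G.drop p).length = n + 1 - p := by rw [List.length_drop, hG]
  have h2 : (G.take p).length = p := by rw [List.length_take, hG]; cases T <;> simp only [wd] at h <;> omega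
  rcases hd : G.drop p with _ | ⟨x, _ | ⟨x', _ | ⟨x'', _ | ⟨x''', r⟩⟩⟩⟩ <;> rw [hd] at h1 <;>
    simp only [List.length_nil, List.length_cons] at h1 <;>
    cases T <;> simp only [wd, up] at h ⊢ <;>
    first
      | omega
      | (simp only [List.length_append, List.length_cons, List.length_nil, h2]; omega)

lemma headL {R : Type} (A : List R) (x y : R) (B B' : List R) (h : A = [] → x = y) :
    (A ++ x :: B).head? = (A ++ y :: B').head? := by
  cases A with
  | nil => simp [h rfl]
  | cons a A => simp

lemma lastL {R : Type} (A A' : List R) (y z : R) (r : List R) (h : r = [] → y = z) :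
    (A ++ y :: r).getLast? = (A' ++ z :: r).getLast? := by
  cases r with
  | nil => simp [h rfl]
  | cons a r =>
      rw [List.getLast?_append, List.getLast?_append, List.getLast?_cons_cons,
        List.getLast?_cons_cons, List.getLast?_eq_some_getLast (List.cons_ne_nil a r)]
      rfl

lemma stp_out {R : Type} [AddCommMonoid R] (T : Ty) (p n : ℕ) (q : Fin 4 → R) (G : List R)
    (hG : G.length = n + 1) (h : p + wd T ≤ n) (hl : p = 0 → q (lc T) = 0)
    (hr : p + wd T = n → q (rc T) = 0) :
    (stp T p q G).head? = G.head? ∧ (stp T p q G).getLast? = G.getLast? := by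
  have h0 : G = G.take p ++ G.drop p := (List.take_append_drop p G).symm
  have h1 : (G.drop p).length = n + 1 - p := by rw [List.length_drop, hG]
  have h2 : (G.take p).length = p := by rw [List.length_take, hG]; cases T <;> simp only [wd] at h <;> omega
  unfold stp
  generalize G.drop p = B at h0 h1 ⊢
  generalize G.take p = A at h0 h2 ⊢
  subst h0
  have hA : A = [] → p = 0 := by
    intro hA
    rw [← h2, hA]
    rfl
  cases T with
  | V =>
      rcases B with _ | ⟨x, _ | ⟨x', _ | ⟨y, r⟩⟩⟩ <;>
      simp only [List.length_nil, List.length_cons, wd] at h1 h <;> try omega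
      simp only [wd, lc, rc] at hl hr ⊢
      refine ⟨headL A _ _ _ _ fun e => by rw [hl (hA e), add_zero], ?_⟩
      have := lastL (A ++ [x + q 3, q 2]) (A ++ [x, x']) (y + q 1) y r (fun e => by
        rw [e] at h1
        simp only [List.length_nil] at h1
        rw [hr (by omega), add_zero])
      simpa using this
  | H =>
      rcases B with _ | ⟨x, _ | ⟨x', _ | ⟨y, r⟩⟩⟩ <;>
      simp only [List.length_nil, List.length_cons, wd] at h1 h <;> try omega
      simp only [wd, lc, rc] at hl hr ⊢
      refine ⟨headL A _ _ _ _ fun e => by rw [hl (hA e), add_zero], ?_⟩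
      have := lastL (A ++ [x + q 2, q 1]) (A ++ [x, x']) (y + q 0) y r (fun e => by
        rw [e] at h1
        simp only [List.length_nil] at h1
        rw [hr (by omega), add_zero])
      simpa using this
  | YL =>
      rcases B with _ | ⟨x, _ | ⟨y, r⟩⟩ <;>
      simp only [List.length_nil, List.length_cons, wd] at h1 h <;> try omega
      simp only [wd, lc, rc] at hl hr ⊢
      refine ⟨headL A _ _ _ _ fun e => by rw [hl (hA e), add_zero], ?_⟩
      have := lastL (A ++ [x + q 3, q 2, q 1]) (A ++ [x]) (y + q 0) y r (fun e => by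
        rw [e] at h1
        simp only [List.length_nil] at h1
        rw [hr (by omega), add_zero])
      simpa using this
  | YR =>
      rcases B with _ | ⟨x, _ | ⟨y, r⟩⟩ <;>
      simp only [List.length_nil, List.length_cons, wd] at h1 h <;> try omega
      simp only [wd, lc, rc] at hl hr ⊢
      refine ⟨headL A _ _ _ _ fun e => by rw [hl (hA e), add_zero], ?_⟩
      have := lastL (A ++ [x + q 0, q 3, q 2]) (A ++ [x]) (y + q 1) y r (fun e => by
        rw [e] at h1
        simp only [List.length_nil] at h1
        rw [hr (by omega), add_zero])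
      simpa using this
  | LL =>
      rcases B with _ | ⟨x, _ | ⟨x', _ | ⟨x'', _ | ⟨y, r⟩⟩⟩⟩ <;>
      simp only [List.length_nil, List.length_cons, wd] at h1 h <;> try omega
      simp only [wd, lc, rc] at hl hr ⊢
      refine ⟨headL A _ _ _ _ fun e => by rw [hl (hA e), add_zero], ?_⟩
      have := lastL (A ++ [x + q 3]) (A ++ [x, x', x'']) (y + q 2) y r (fun e => by
        rw [e] at h1
        simp only [List.length_nil] at h1
        rw [hr (by omega), add_zero])
      simpa using this
  | LR =>
      rcases B with _ | ⟨x, _ | ⟨x', _ | ⟨x'', _ | ⟨y, r⟩⟩⟩⟩ <;>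
      simp only [List.length_nil, List.length_cons, wd] at h1 h <;> try omega
      simp only [wd, lc, rc] at hl hr ⊢
      refine ⟨headL A _ _ _ _ fun e => by rw [hl (hA e), add_zero], ?_⟩
      have := lastL (A ++ [x + q 2]) (A ++ [x, x', x'']) (y + q 1) y r (fun e => by
        rw [e] at h1
        simp only [List.length_nil] at h1
        rw [hr (by omega), add_zero])
      simpa using this

lemma cor_zero {R : Type} [AddCommMonoid R] (x : Fin 6 → R) (j : Fin 4)
    (h : ∀ i, c6 i = j → x i = 0) : cor x j = 0 := by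
  fin_cases j
  · simpa [cor] using h 0 rfl
  · have h1 := h 1 rfl
    have h4 := h 4 rfl
    simp [cor, h1, h4]
  · simpa [cor] using h 3 rfl
  · have h1 := h 2 rfl
    have h4 := h 5 rfl
    simp [cor, h1, h4]

lemma gfi_out {R : Type} [AddCommMonoid R] : ∀ (D : List Pc) (n : ℕ), Val D n →
    ∀ (a : Fin D.length → Fin 6 → R) (G : List R), G.length = n + 1 → G.head? = some 0 →
    G.getLast? = some 0 → (∀ k i, Out D n k (c6 i) → a k i = 0) → gfi D a G = [0, 0] := by
  intro D
  induction D with
  | nil =>
      intro n hn a G hG h1 h2 _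
      have hn' : n = 1 := hn
      subst hn'
      rcases G with _ | ⟨x, _ | ⟨y, _ | ⟨z, r⟩⟩⟩ <;>
        simp only [List.length_nil, List.length_cons] at hG <;> try omega
      simp only [List.head?_cons, Option.some.injEq] at h1
      simp only [List.getLast?_cons_cons, List.getLast?_singleton, Option.some.injEq] at h2
      rw [h1, h2]
      rfl
  | cons P D ih =>
      intro n hn a G hG h1 h2 ha
      have hs := stp_out P.ty P.p n (cor (a 0)) G hG hn.1
        (fun hp => cor_zero _ _ fun i hi => ha 0 i (Or.inl ⟨hp, hi⟩))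
        (fun hp => cor_zero _ _ fun i hi => ha 0 i (Or.inr ⟨hp, hi⟩))
      exact ih (up P.ty n) hn.2 (fun k => a k.succ) _ (stp_len _ _ _ _ _ hG hn.1)
        (hs.1.trans h1) (hs.2.trans h2) (fun k i ho => ha k.succ i ho)

/-! ### the linear map -/

/-- the angles which are not outer -/
abbrev In (D : List Pc) : Type := {q : Fin D.length × Fin 6 // ¬ Out D 1 q.1 (c6 q.2)}

open Classical in
/-- extension by `0` -/
noncomputable def ext0 (D : List Pc) : (In D → ℤ) →ₗ[ℤ] (Fin D.length → Fin 6 → ℤ) where
  toFun f k i := if h : ¬ Out D 1 k (c6 i) then f ⟨(k, i), h⟩ else 0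
  map_add' f g := by
    funext k i
    simp only [Pi.add_apply]
    split_ifs <;> simp
  map_smul' r f := by
    funext k i
    simp only [Pi.smul_apply, smul_eq_mul, RingHom.id_apply]
    split_ifs <;> simp

lemma ext0_inj (D : List Pc) : Function.Injective (ext0 D) := by
  intro f g h
  funext q
  have := congrFun (congrFun h q.1.1) q.1.2
  simp only [ext0, LinearMap.coe_mk, AddHom.coe_mk] at this
  rw [dif_pos q.2, dif_pos q.2] at this
  exact this

lemma ext0_out (D : List Pc) (f : In D → ℤ) (k : Fin D.length) (i : Fin 6)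
    (h : Out D 1 k (c6 i)) : ext0 D f k i = 0 := by
  simp only [ext0, LinearMap.coe_mk, AddHom.coe_mk]
  rw [dif_neg (not_not.2 h)]

lemma ext0_surj (D : List Pc) (a : Fin D.length → Fin 6 → ℤ)
    (h : ∀ k i, Out D 1 k (c6 i) → a k i = 0) : ∃ f, ext0 D f = a := by
  refine ⟨fun q => a q.1.1 q.1.2, ?_⟩
  funext k i
  simp only [ext0, LinearMap.coe_mk, AddHom.coe_mk]
  split_ifs with h1
  · exact (h k i h1).symm
  · rfl

/-- closed regions, additivity -/
lemma clo_add (D : List Pc) (a b : Fin D.length → Fin 6 → ℤ) (j : ℕ) :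
    (clo D (a + b) [0, 0]).getD j 0 = (clo D a [0, 0]).getD j 0 + (clo D b [0, 0]).getD j 0 := by
  have h1 := clo_map (AddMonoidHom.fst ℤ ℤ) D (fun k i => (a k i, b k i)) [(0, 0), (0, 0)]
  have h2 := clo_map (AddMonoidHom.snd ℤ ℤ) D (fun k i => (a k i, b k i)) [(0, 0), (0, 0)]
  have h3 := clo_map (AddMonoidHom.fst ℤ ℤ + AddMonoidHom.snd ℤ ℤ) D (fun k i => (a k i, b k i))
    [(0, 0), (0, 0)]
  simp only [AddMonoidHom.coe_fst, AddMonoidHom.coe_snd, List.map_cons, List.map_nil,
    AddMonoidHom.add_apply, add_zero] at h1 h2 h3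
  have e3 : (fun (k : Fin D.length) (i : Fin 6) => a k i + b k i) = a + b := rfl
  rw [e3] at h3
  have e1 : (fun (k : Fin D.length) (i : Fin 6) => a k i) = a := rfl
  have e2 : (fun (k : Fin D.length) (i : Fin 6) => b k i) = b := rfl
  rw [e1] at h1
  rw [e2] at h2
  rw [h1, h2, h3]
  simp only [List.getD_eq_getElem?_getD, List.getElem?_map]
  cases (clo D (fun k i => (a k i, b k i)) [(0, 0), (0, 0)])[j]? <;> simp

/-- all angle sums -/
noncomputable def TT (D : List Pc) :
    (In D → ℤ) →+ (Fin D.length → ℤ) × (Fin D.length → ℤ) :=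
  AddMonoidHom.mk' (fun f => (fun k => n1 (ext0 D f k) + n2 (ext0 D f k),
    fun j => (clo D (ext0 D f) [0, 0]).getD j 0)) (by
      intro f g
      rw [map_add]
      refine Prod.ext ?_ ?_
      · funext k
        simp only [n1, n2, Pi.add_apply, Prod.fst_add]
        ring
      · funext j
        exact clo_add D _ _ _)

lemma rank_null {M N : Type} [AddCommGroup M] [AddCommGroup N] [Module.Finite ℤ M]
    (f : M →ₗ[ℤ] N) : Module.finrank ℤ (LinearMap.range f) + Module.finrank ℤ (LinearMap.ker f) =
      Module.finrank ℤ M := by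
  rw [← f.quotKerEquivRange.finrank_eq]
  exact Submodule.finrank_quotient_add_finrank _

/-- the relation -/
noncomputable def SS (c : ℕ) : ((Fin c → ℤ) × (Fin c → ℤ)) →ₗ[ℤ] ℤ :=
  (Fintype.linearCombination ℤ (fun _ : Fin c => (1 : ℤ))).comp (LinearMap.fst ℤ _ _) -
    (Fintype.linearCombination ℤ (fun _ : Fin c => (1 : ℤ))).comp (LinearMap.snd ℤ _ _)

lemma SS_apply (c : ℕ) (x : (Fin c → ℤ) × (Fin c → ℤ)) : SS c x = ∑ i, x.1 i - ∑ i, x.2 i := by
  simp [SS, Fintype.linearCombination_apply]

lemma rank_SS (c : ℕ) (hc : 0 < c) : Module.finrank ℤ (LinearMap.ker (SS c)) + 1 = 2 * c := by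
  have h1 := rank_null (SS c)
  have h2 : LinearMap.range (SS c) = ⊤ := by
    rw [LinearMap.range_eq_top]
    intro z
    refine ⟨(fun i => if i = ⟨0, hc⟩ then z else 0, 0), ?_⟩
    rw [SS_apply]
    simp
  rw [h2, finrank_top, Module.finrank_self, Module.finrank_prod, Module.finrank_pi,
    Fintype.card_fin] at h1
  omega

/-- JOB DIM -/
theorem task_DIM : S_DIM := by
  intro hSO hSUR hNC D hv hp hD L hL
  classical
  have hc : 0 < D.length := List.length_pos_of_ne_nil hD
  have hn : (D.map fun P => ncl P.ty).sum = D.length := by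
    have := hNC.1 D 1 hv
    omega
  have hlen : ∀ a : Fin D.length → Fin 6 → ℤ, (clo D a [0, 0]).length = D.length := fun a => by
    rw [(hNC.2 ℤ D 1 hv a [0, 0] rfl).1, hn]
  have hsum : ∀ a : Fin D.length → Fin 6 → ℤ, (clo D a [0, 0]).sum =
      ∑ j : Fin D.length, (clo D a [0, 0]).getD j 0 := by
    intro a
    have h1 := hlen a
    conv_lhs => rw [← List.ofFn_get (clo D a [0, 0])]
    rw [List.sum_ofFn]
    refine Fintype.sum_equiv (finCongr h1) _ _ fun j => ?_
    simp
  let T := (TT D).toIntLinearMap
  have hker : L = (LinearMap.ker T).map (ext0 D) := by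
    ext δ
    rw [hL, Submodule.mem_map, hSO.1]
    constructor
    · rintro ⟨⟨h1, h2, -⟩, h4⟩
      obtain ⟨f, hf⟩ := ext0_surj D δ h4
      refine ⟨f, ?_, hf⟩
      rw [LinearMap.mem_ker]
      show (TT D) f = 0
      refine Prod.ext ?_ ?_
      · funext k
        show n1 (ext0 D f k) + n2 (ext0 D f k) = 0
        rw [hf]
        exact h1 k
      · funext j
        show (clo D (ext0 D f) [0, 0]).getD j 0 = 0
        rw [hf, List.getD_eq_getElem _ _ (by rw [hlen]; exact j.2)]
        exact h2 _ (List.getElem_mem _)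
    · rintro ⟨f, hf, rfl⟩
      rw [LinearMap.mem_ker] at hf
      have hf' : TT D f = 0 := hf
      have h1 := congrArg Prod.fst hf'
      have h2 := congrArg Prod.snd hf'
      refine ⟨⟨fun k => congrFun h1 k, ?_, ?_⟩, fun k i h => ext0_out D f k i h⟩
      · intro c hc'
        obtain ⟨j, hj, rfl⟩ := List.getElem_of_mem hc'
        have h3 := congrFun h2 ⟨j, by rw [hlen] at hj; exact hj⟩
        have h4 : (clo D (ext0 D f) [0, 0]).getD j 0 = 0 := h3
        rw [List.getD_eq_getElem _ _ hj] at h4
        exact h4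
      · exact gfi_out D 1 hv _ _ rfl rfl rfl fun k i h => ext0_out D f k i h
  have hrange : LinearMap.range T = LinearMap.ker (SS D.length) := by
    ext y
    rw [LinearMap.mem_range, LinearMap.mem_ker, SS_apply]
    constructor
    · rintro ⟨f, rfl⟩
      have h1 := (hNC.2 ℤ D 1 hv (ext0 D f) [0, 0] rfl).2.2
      rw [gfi_out D 1 hv (ext0 D f) [0, 0] rfl rfl rfl fun k i h => ext0_out D f k i h, hsum] at h1
      simp only [List.sum_cons, List.sum_nil, add_zero, zero_add] at h1
      show ∑ i, (n1 (ext0 D f i) + n2 (ext0 D f i)) -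
        ∑ j : Fin D.length, (clo D (ext0 D f) [0, 0]).getD j 0 = 0
      rw [h1, sub_self]
    · intro h
      obtain ⟨a, h1, h2, h3, -⟩ := hSUR ℤ D 1 hv hp hD [0, 0] rfl rfl rfl y.1 (List.ofFn y.2)
        (by rw [List.length_ofFn, hn]) (by
          rw [List.sum_ofFn]
          simp only [List.sum_cons, List.sum_nil, add_zero, zero_add]
          linarith)
      obtain ⟨f, hf⟩ := ext0_surj D a h1
      refine ⟨f, ?_⟩
      show TT D f = y
      refine Prod.ext ?_ ?_
      · funext k
        show n1 (ext0 D f k) + n2 (ext0 D f k) = _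
        rw [hf]
        exact h2 k
      · funext j
        show (clo D (ext0 D f) [0, 0]).getD j 0 = _
        rw [hf, h3]
        simp
  have hfin : Module.finrank ℤ L = Module.finrank ℤ (LinearMap.ker T) := by
    rw [hker]
    exact ((LinearMap.ker T).equivMapOfInjective (ext0 D) (ext0_inj D)).finrank_eq.symm
  have h1 := rank_null T
  have h2 := rank_SS D.length hc
  rw [hrange, Module.finrank_pi] at h1
  have h3 : Nat.card {q : Fin D.length × Fin 6 // ¬ Out D 1 q.1 (c6 q.2)} =
      Fintype.card (In D) := Nat.card_eq_fintype_card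
  rw [hfin, h3]
  omega

end Pool.Agent.Q299.FAL
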