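import Pool.Agent.Q99.FAL.Stm

/-!
# The `q`-binomial coefficients of project FAL
-/

set_option autoImplicit false

namespace Pool.Agent.Q299.FAL

open Finset
open Pool.Agent.W719.BS (D D_pos D_refl)
open Pool.Agent.Q191.TW (cs cs_add cs_zero cs_ne cs_period cs_neg)
open Pool.Agent.Q99.FW
open Pool.Agent.Q99.FAL

variable {N : ℕ}

lemma TZ_swap (x y z : ℤ) : TZ N x y z = TZ N y x z := by
  unfold TZ
  by_cases h : 0 ≤ x ∧ 0 ≤ y ∧ 0 ≤ z
  · rw [if_pos h, if_pos ⟨h.2.1, h.1, h.2.2⟩]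
    unfold Tri
    rw [mul_comm (D N x.toNat) (D N y.toNat)]
  · rw [if_neg h, if_neg (fun h' => h ⟨h'.2.1, h'.1, h'.2.2⟩)]

lemma TZ_rot (x y z : ℤ) : TZ N x y z = TZ N z x y := by
  unfold TZ
  by_cases h : 0 ≤ x ∧ 0 ≤ y ∧ 0 ≤ z
  · rw [if_pos h, if_pos ⟨h.2.2, h.1, h.2.1⟩]
    unfold Tri
    congr 1
    ring
  · rw [if_neg h, if_neg (fun h' => h ⟨h'.2.1, h'.2.2, h'.1⟩)]

lemma bq_symm (n k : ℤ) : bq N n (n - k) = bq N n k := by
  unfold bq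
  rw [TZ_swap, sub_sub_cancel]

lemma bq_zero {n k : ℤ} (h : ¬ (0 ≤ k ∧ k ≤ n ∧ n ≤ (N : ℤ) - 1)) : bq N n k = 0 :=
  TZ_zero (by omega)

lemma bq_nat {n k : ℕ} (h : k ≤ n) (hn : n < N) : bq N n k = D N n / (D N k * D N (n - k)) :=
  TZ1 h hn

lemma bq_mul {x l n : ℕ} (hx : x < N) (hl : l < N) (hn : n < N) :
    bq N x l * bq N l ((x : ℤ) - n) = bq N x n * bq N n ((x : ℤ) - l) := by
  by_cases h1 : n ≤ x
  swap
  · rw [bq_zero (n := (l : ℤ)) (k := (x : ℤ) - n) (by omega), bq_zero (n := (x : ℤ)) (k := (n : ℤ))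
      (by omega), mul_zero, zero_mul]
  by_cases h2 : l ≤ x
  swap
  · rw [bq_zero (n := (x : ℤ)) (k := (l : ℤ)) (by omega), bq_zero (n := (n : ℤ)) (k := (x : ℤ) - l)
      (by omega), mul_zero, zero_mul]
  by_cases h3 : x ≤ l + n
  swap
  · rw [bq_zero (n := (l : ℤ)) (k := (x : ℤ) - n) (by omega), bq_zero (n := (n : ℤ))
      (k := (x : ℤ) - l) (by omega), mul_zero, mul_zero]
  have e1 : (x : ℤ) - n = ((x - n : ℕ) : ℤ) := by omega
  have e2 : (x : ℤ) - l = ((x - l : ℕ) : ℤ) := by omega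
  rw [e1, e2, bq_nat h2 hx, bq_nat (by omega) hl, bq_nat h1 hx, bq_nat (by omega) hn]
  have e3 : l - (x - n) = n - (x - l) := by omega
  rw [e3]
  have d1 := (D_pos N l hl).ne'
  have d2 := (D_pos N n hn).ne'
  have d3 := (D_pos N (x - l) (by omega)).ne'
  have d4 := (D_pos N (x - n) (by omega)).ne'
  have d5 := (D_pos N (n - (x - l)) (by omega)).ne'
  field_simp

end Pool.Agent.Q299.FAL
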