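import Pool.Agent.Q299.FAL.Bq

/-!
# Job F1 of project FAL: the operator of a circle with `m` crossings in the Fourier basis
-/

set_option autoImplicit false

namespace Pool.Agent.Q299.FAL

open Finset Matrix
open Pool.Agent.W719.BS (D D_pos D_refl)
open Pool.Agent.W715.VC (rt)
open Pool.Agent.Q191.LB (sg)
open Pool.Agent.Q191.TW (cs cs_add cs_zero cs_ne cs_period cs_neg rt_cs)
open Pool.Agent.Q99.FW (TZ Kg K2 Xm)
open Pool.Agent.Q99.FAL

variable {N : ℕ}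

lemma rt_ne (N : ℕ) : rt N ≠ 0 := Pool.Agent.W613.QAT.rt_ne N

lemma nu_add (s t : ℤ) : nu N (s + t) = nu N s * nu N t := by
  unfold nu
  exact zpow_add₀ (neg_ne_zero.2 (inv_ne_zero (rt_ne N))) s t

lemma cs_int_period (hN : 0 < N) (x : ℝ) (k : ℤ) : cs N (x + 2 * N * k) = cs N x := cs_period hN x k

/-- `cs N N = -1` -/
lemma cs_self (hN : 0 < N) : cs N N = -1 := by
  have h0 : (N : ℝ) ≠ 0 := by exact_mod_cast hN.ne'
  unfold cs
  have : (Real.pi * N / N : ℝ) = Real.pi := by field_simp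
  rw [this, Complex.exp_pi_mul_I]

lemma cs_zmul (x : ℝ) (k : ℤ) : cs N (k * x) = cs N x ^ k := by
  unfold cs
  rw [← Complex.exp_int_mul]
  congr 1
  push_cast
  ring

lemma nu_cs (hN : 0 < N) (s : ℤ) : nu N s = cs N ((N - 1) * s) := by
  have h1 : (-(rt N)⁻¹) = cs N ((N : ℝ) - 1) := by
    have h2 : rt N = cs N 1 := by
      have := rt_cs N 1
      rw [zpow_one] at this
      rw [this]
      norm_num
    rw [h2, ← cs_neg, sub_eq_add_neg, cs_add, cs_self hN]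
    ring
  unfold nu
  rw [h1, mul_comm, cs_zmul]

lemma neg_one_cs (hN : 0 < N) (k : ℕ) : (-1 : ℂ) ^ k = cs N (N * k) := by
  have h := cs_zmul (N := N) N k
  rw [cs_self hN, zpow_natCast] at h
  rw [← h]
  congr 1
  push_cast
  ring

lemma ph_add (hN : 0 < N) (k s t : ℤ) (x : ℕ) : ph N k (s + N * t) x = ph N k s x := by
  unfold ph
  have h := cs_period hN (-(((x : ℤ) : ℝ) ^ 2 / 2 + ((N : ℝ) - 1) * k * ((x : ℤ) : ℝ) + 2 * s * ((x : ℤ) : ℝ)))
    (-(t * x))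
  rw [← h]
  congr 1
  push_cast
  ring

/-- the quadruple sum -/
noncomputable def Qt (N : ℕ) (w : ℝ) (i j : ℤ) (p : Fin N × Fin N) (n b c d : ℕ) : ℂ :=
  cs N (w * (2 * (n : ℝ) - (N - 1)) ^ 2 / 4) *
    ((cs N (((N : ℝ) - 1) * (((j - i - 1) % N : ℤ) + 2 * b + 1)) *
    ((bq N (N - 1 - n) ((j - i - 1) % N) * bq N n b * bq N n ((j - i - 1) % N + b) : ℝ) : ℂ)) *
    ((cs N (((N : ℝ) - 1) * (c + 2 * d)) *
    ((bq N n c * bq N (N - 1 - n) d * bq N (N - 1 - n) (c + d) : ℝ) : ℂ)) *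
      (ph N 0 (j + b + c + d) (p.1 : ℕ) * ph N 1 (j + b + d) (p.2 : ℕ))))

lemma zv_apply (w : ℝ) (i j : ℤ) (p : Fin N × Fin N) (n : ℕ) :
    cs N (w * (2 * (n : ℝ) - (N - 1)) ^ 2 / 4) * zv N n i j p =
      ∑ b ∈ range N, ∑ c ∈ range N, ∑ d ∈ range N, Qt N w i j p n b c d := by
  unfold zv wv uv Qt
  simp only [Finset.sum_apply, Pi.smul_apply, smul_eq_mul, mul_sum]

/-- JOB F1 -/
theorem task_F1 : S_F1 := by
  intro hXZ hUN hXC hXD hZC hZW hZD hEU hEW hZU hQV hQB N hN σ m i j p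
  have hX := hXZ hUN hXC hXD hZC hZW hZD hEU hEW hZU hQV hQB N hN σ m
  have h1 : ∑ q : Fin N × Fin N, Xm N σ m p q * (nu N (i + j) * (ph N 0 i (q.1 : ℕ) * ph N 1 j (q.2 : ℕ))) =
      nu N (i + j) * (Xm N σ m *ᵥ uv N i j) p := by
    rw [mulVec, dotProduct, mul_sum]
    refine sum_congr rfl fun q _ => ?_
    unfold uv
    ring
  have h2 : (Xm N σ m *ᵥ uv N i j) p = (Kg N (sg σ) ^ m * K2 N * N * (-1) ^ (N - 1)) *
      ∑ n ∈ range N, cs N ((sg σ * m : ℝ) * (2 * (n : ℝ) - (N - 1)) ^ 2 / 4) * zv N n i j p := by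
    rw [hX, smul_mulVec, Pi.smul_apply, smul_eq_mul, sum_mulVec, Finset.sum_apply]
    congr 1
    refine sum_congr rfl fun n _ => ?_
    rw [smul_mulVec, Pi.smul_apply, smul_eq_mul, (hZU N hN n).1 i j]
  rw [h1, h2, sum_congr rfl fun n _ => zv_apply (sg σ * m) i j p n]
  obtain ⟨a, ha⟩ : ∃ a : ℕ, (a : ℤ) = (j - i - 1) % N :=
    ⟨((j - i - 1) % N).toNat, Int.toNat_of_nonneg (Int.emod_nonneg _ (by omega))⟩
  have haN : a < N := by
    have := Int.emod_lt_of_pos (j - i - 1) (show (0 : ℤ) < N by exact_mod_cast hN)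
    omega
  have hdvd : ∃ t : ℤ, j = i + 1 + a + N * t := by
    refine ⟨(j - i - 1) / N, ?_⟩
    have := Int.emod_add_mul_ediv (j - i - 1) N
    rw [ha]
    linarith
  obtain ⟨t, ht⟩ := hdvd
  -- the sum over quadruples
  have h3 : ∑ n ∈ range N, ∑ b ∈ range N, ∑ c ∈ range N, ∑ d ∈ range N,
      Qt N (sg σ * m) i j p n b c d = ∑ y ∈ (range N ×ˢ range N ×ˢ range N ×ˢ range N).filter
        (fun y => a + y.2.1 ≤ y.1 ∧ y.2.2.1 + y.2.2.2 ≤ N - 1 - y.1),
          Qt N (sg σ * m) i j p y.1 y.2.1 y.2.2.1 y.2.2.2 := by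
    rw [Finset.sum_filter_of_ne]
    · rw [sum_product]
      refine sum_congr rfl fun n _ => ?_
      rw [sum_product]
      refine sum_congr rfl fun b _ => ?_
      rw [sum_product]
    · rintro ⟨n, b, c, d⟩ hy hne
      simp only [mem_product, mem_range] at hy
      simp only
      by_contra hcon
      apply hne
      simp only
      unfold Qt
      rw [← ha]
      by_cases hc : a + b ≤ n
      · have h4 : bq N (N - 1 - n) ((c : ℤ) + d) = 0 := bq_zero (by omega)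
        rw [h4]
        simp
      · have h4 : bq N n ((a : ℤ) + b) = 0 := bq_zero (by omega)
        rw [h4]
        simp
  rw [h3]
  have h5 : ∑ x : Fin 6 → Fin N,
      (if ((x 0 : ℕ) : ℤ) = (j - i - 1) % N ∧ n1 (zz x) + n2 (zz x) = N - 1 then
        wt6 N (sg σ * m) (zz x) * (nu N (i - cor (zz x) 3 + (j + cor (zz x) 1)) *
          (ph N 0 (i - cor (zz x) 3) (p.1 : ℕ) * ph N 1 (j + cor (zz x) 1) (p.2 : ℕ))) else 0) =
      ∑ x ∈ univ.filter (fun x : Fin 6 → Fin N => (x 0 : ℕ) = a ∧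
        (x 0 : ℕ) + x 1 + x 2 + (x 3 + x 4 + x 5) + 1 = N),
        wt6 N (sg σ * m) (zz x) * (nu N (i - cor (zz x) 3 + (j + cor (zz x) 1)) *
          (ph N 0 (i - cor (zz x) 3) (p.1 : ℕ) * ph N 1 (j + cor (zz x) 1) (p.2 : ℕ))) := by
    rw [sum_filter]
    refine sum_congr rfl fun x _ => ?_
    refine if_congr ?_ rfl rfl
    rw [← ha]
    unfold n1 n2 zz
    omega
  rw [h5]
  have h6 : nu N (i + j) * (Kg N (sg σ) ^ m * K2 N * N * (-1) ^ (N - 1) *
      ∑ y ∈ (range N ×ˢ range N ×ˢ range N ×ˢ range N).filter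
        (fun y => a + y.2.1 ≤ y.1 ∧ y.2.2.1 + y.2.2.2 ≤ N - 1 - y.1),
          Qt N (sg σ * m) i j p y.1 y.2.1 y.2.2.1 y.2.2.2) =
      Kg N (sg σ) ^ m * K2 N * N * ∑ y ∈ (range N ×ˢ range N ×ˢ range N ×ˢ range N).filter
        (fun y => a + y.2.1 ≤ y.1 ∧ y.2.2.1 + y.2.2.2 ≤ N - 1 - y.1),
          (nu N (i + j) * (-1) ^ (N - 1)) * Qt N (sg σ * m) i j p y.1 y.2.1 y.2.2.1 y.2.2.2 := by
    rw [← mul_sum]
    ring
  rw [h6]
  congr 1
  symm
  refine Finset.sum_nbij (fun x => ((x 0 : ℕ) + x 1 + x 2, (x 1 : ℕ), (x 3 : ℕ), (x 4 : ℕ)))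
    ?_ ?_ ?_ ?_
  · intro x hx
    rw [mem_filter] at hx
    simp only [mem_filter, mem_product, mem_range]
    have := (x 1).2
    have := (x 3).2
    have := (x 4).2
    omega
  · intro x hx y hy hxy
    simp only [coe_filter, mem_univ, true_and, Set.mem_setOf_eq] at hx hy
    simp only [Prod.mk.injEq] at hxy
    funext k
    apply Fin.ext
    fin_cases k
    · show (x 0 : ℕ) = y 0
      omega
    · show (x 1 : ℕ) = y 1
      omega
    · show (x 2 : ℕ) = y 2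
      omega
    · show (x 3 : ℕ) = y 3
      omega
    · show (x 4 : ℕ) = y 4
      omega
    · show (x 5 : ℕ) = y 5
      omega
  · rintro ⟨n, b, c, d⟩ hy
    simp only [coe_filter, mem_product, mem_range, Set.mem_setOf_eq] at hy
    refine ⟨![⟨a, haN⟩, ⟨b, by omega⟩, ⟨n - a - b, by omega⟩, ⟨c, by omega⟩, ⟨d, by omega⟩,
      ⟨N - 1 - n - c - d, by omega⟩], ?_, ?_⟩
    · simp only [coe_filter, mem_univ, true_and, Set.mem_setOf_eq]
      show a = a ∧ a + b + (n - a - b) + (c + d + (N - 1 - n - c - d)) + 1 = N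
      omega
    · show (a + b + (n - a - b), b, c, d) = (n, b, c, d)
      simp only [Prod.mk.injEq, and_true]
      omega
  · intro x hx
    rw [mem_filter] at hx
    obtain ⟨-, hx0, hxs⟩ := hx
    simp only
    have z0 : zz x 0 = a := by
      show ((x 0 : ℕ) : ℤ) = a
      rw [hx0]
    obtain ⟨b, hb⟩ : ∃ b, b = (x 1 : ℕ) := ⟨_, rfl⟩
    obtain ⟨e, he⟩ : ∃ e, e = (x 2 : ℕ) := ⟨_, rfl⟩
    obtain ⟨c, hc⟩ : ∃ c, c = (x 3 : ℕ) := ⟨_, rfl⟩
    obtain ⟨d, hd⟩ : ∃ d, d = (x 4 : ℕ) := ⟨_, rfl⟩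
    obtain ⟨f, hf⟩ : ∃ f, f = (x 5 : ℕ) := ⟨_, rfl⟩
    have z1 : zz x 1 = b := by rw [hb]; rfl
    have z2 : zz x 2 = e := by rw [he]; rfl
    have z3 : zz x 3 = c := by rw [hc]; rfl
    have z4 : zz x 4 = d := by rw [hd]; rfl
    have z5 : zz x 5 = f := by rw [hf]; rfl
    have c3 : cor (zz x) 3 = e + f := by
      show zz x 2 + zz x 5 = _
      rw [z2, z5]
    have c1 : cor (zz x) 1 = b + d := by
      show zz x 1 + zz x 4 = _
      rw [z1, z4]
    have en1 : n1 (zz x) = a + b + e := by unfold n1; rw [z0, z1, z2]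
    have en2 : n2 (zz x) = c + d + f := by unfold n2; rw [z3, z4, z5]
    rw [← hb, ← he, ← hc, ← hd, ← hf, hx0] at hxs
    rw [← hb, ← he, ← hc, ← hd, hx0, c3, c1]
    obtain ⟨n, hn⟩ : ∃ n, n = a + b + e := ⟨_, rfl⟩
    rw [← hn]
    have hnZ : (n : ℤ) = a + b + e := by rw [hn]; push_cast; ring
    have hn2Z : (N : ℤ) - 1 - n = c + d + f := by omega
    unfold wt6
    rw [z0, z1, z2, z3, z4, z5, en1, en2, ← hnZ, ← hn2Z]
    unfold Qt
    rw [← ha]
    have b1 : bq N n ((a : ℤ) + b) = bq N n e := by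
      rw [← bq_symm (n : ℤ) ((a : ℤ) + b)]
      congr 1
      omega
    have b2 : bq N (N - 1 - n) ((c : ℤ) + d) = bq N (N - 1 - n) f := by
      rw [← bq_symm ((N : ℤ) - 1 - n) ((c : ℤ) + d)]
      congr 1
      omega
    rw [b1, b2]
    have p1 : ph N 0 (j + b + c + d) (p.1 : ℕ) = ph N 0 (i - (e + f)) (p.1 : ℕ) := by
      have h7 := ph_add hN 0 (i - (e + f)) (t + 1) (p.1 : ℕ)
      rw [← h7]
      congr 1
      rw [ht]
      have : (N : ℤ) = a + b + e + c + d + f + 1 := by omega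
      rw [this]
      ring_nf
    have p2 : ph N 1 (j + b + d) (p.2 : ℕ) = ph N 1 (j + (b + d)) (p.2 : ℕ) := by
      rw [add_assoc]
    rw [p1, p2]
    have w1 : cs N (sg σ * m * (((n - (N - 1 - n) : ℤ)) : ℝ) ^ 2 / 4) =
        cs N ((sg σ * m : ℝ) * (2 * (n : ℝ) - (N - 1)) ^ 2 / 4) := by
      congr 1
      push_cast
      ring
    rw [w1]
    have w2 : nu N (i - (e + f) + (j + (b + d))) =
        nu N (i + j) * (-1) ^ (N - 1) * (cs N (((N : ℝ) - 1) * (((a : ℤ) : ℝ) + 2 * b + 1)) *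
          cs N (((N : ℝ) - 1) * (c + 2 * d))) := by
      have e1 : i - (e + f) + (j + (b + d)) = (i + j) + ((b + d) - (e + f) : ℤ) := by ring
      rw [e1, nu_add, nu_cs hN ((b + d) - (e + f) : ℤ), neg_one_cs hN, mul_assoc, ← cs_add, ← cs_add]
      congr 1
      have hNR : (N : ℝ) = a + b + e + c + d + f + 1 := by exact_mod_cast hxs.symm.trans (by ring)
      have hN1 : ((N - 1 : ℕ) : ℝ) = N - 1 := by
        have : ((N - 1 : ℕ) : ℤ) = (N : ℤ) - 1 := by omega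
        exact_mod_cast congrArg (fun z : ℤ => (z : ℝ)) this
      rw [hN1]
      symm
      have h9 := cs_period hN (((N : ℝ) - 1) * (((b + d) - (e + f) : ℤ) : ℝ)) ((N : ℤ) - 1)
      rw [← h9]
      congr 1
      push_cast
      have h10 : (a : ℝ) = N - b - e - c - d - f - 1 := by linarith
      rw [h10]
      ring
    rw [w2]
    push_cast
    ring

end Pool.Agent.Q299.FAL
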