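import Pool.Agent.Q99.FAL.Stm3
import Pool.Agent.Q191.TW.Gau

/-!
# Job GI of project FAL: a complex Gaussian integral does not vanish
-/

set_option autoImplicit false

namespace Pool.Agent.Q299.FAL

open Finset Matrix
open Pool.Agent.Q99.FAL
open Pool.Agent.Q191.TW (qf gauss_ne)

/-- the matrix of a quadratic form -/
noncomputable def mtx {J d : ℕ} (cf : Fin J → ℝ) (l : Fin J → (Fin d → ℝ) →ₗ[ℝ] ℝ) :
    Matrix (Fin d) (Fin d) ℝ :=
  fun a b => ∑ j, cf j * (l j (fun i => if a = i then 1 else 0) * l j (fun i => if b = i then 1 else 0))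

lemma qf_mtx {J d : ℕ} (cf : Fin J → ℝ) (l : Fin J → (Fin d → ℝ) →ₗ[ℝ] ℝ) (u : Fin d → ℝ) :
    qf (mtx cf l) u = ∑ j, cf j * l j u ^ 2 := by
  unfold qf mtx mulVec dotProduct
  simp only
  have h : ∀ j, l j u = ∑ a, u a * l j (fun i => if a = i then 1 else 0) := by
    intro j
    rw [LinearMap.pi_apply_eq_sum_univ (l j) u]
    rfl
  have h1 : ∀ j, cf j * l j u ^ 2 = ∑ a, ∑ b, cf j * ((u a * l j (fun i => if a = i then 1 else 0)) *
      (u b * l j (fun i => if b = i then 1 else 0))) := by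
    intro j
    rw [h j, pow_two, Finset.sum_mul_sum, Finset.mul_sum]
    exact Finset.sum_congr rfl fun a _ => Finset.mul_sum _ _ _
  rw [Finset.sum_congr rfl fun j _ => h1 j, Finset.sum_comm]
  refine Finset.sum_congr rfl fun a _ => ?_
  rw [Finset.sum_comm, Finset.mul_sum]
  refine Finset.sum_congr rfl fun b _ => ?_
  rw [Finset.sum_mul, Finset.mul_sum]
  exact Finset.sum_congr rfl fun j _ => by ring

/-- JOB GI -/
theorem task_GI : S_GI := by
  intro d J K l m cf e hcf hl
  have hp : ∀ u : Fin d → ℝ, u ≠ 0 → 0 < qf (mtx cf l) u := by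
    intro u hu
    rw [qf_mtx]
    obtain ⟨j, hj⟩ : ∃ j, l j u ≠ 0 := by
      by_contra hh
      push Not at hh
      exact hu (hl u hh)
    refine Finset.sum_pos' (fun j _ => mul_nonneg (hcf j).le (sq_nonneg _)) ⟨j, mem_univ j, ?_⟩
    exact mul_pos (hcf j) (by positivity)
  have h := gauss_ne (mtx cf l) (mtx e m) hp
  intro h0
  apply h
  rw [← h0]
  congr 1
  funext u
  rw [qf_mtx, qf_mtx]
  congr 1
  push_cast
  ring

end Pool.Agent.Q299.FAL
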