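import Pool.Agent.Q99.FAL.Stm

/-!
# Job XC of project FAL: the operator of an encircled twist region is a homomorphism
-/

set_option autoImplicit false

namespace Pool.Agent.Q299.FAL

open Matrix Finset Filter Topology
open Pool.Agent.H550R3.Jones (WM IsMod IsInt Gen br brf tens irr nb R Rinv Rh Rhi crossP crossN ptr W)
open Pool.Agent.H897R.J (gen_v)
open Pool.Agent.W715.VC (rt)
open Pool.Agent.Q191.FT
open Pool.Agent.Q191.LB (sg cx)
open Pool.Agent.Q191.SH (X2 X2_diff C2 C2_mul C2_pow e2 MM2_E MM2_F MM2_wt)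
open Pool.Agent.Q99.FW
open Pool.Agent.Q99.FAL

section gen
variable {ι : Type} [Fintype ι] [DecidableEq ι] {M : WM ι} {T T' : Matrix ι ι ℂ}

lemma int_one : IsInt M M (1 : Matrix ι ι ℂ) where
  e := by rw [one_mul, mul_one]
  f := by rw [one_mul, mul_one]
  k i j h := by
    by_cases hij : i = j
    · rw [hij]
    · rw [Matrix.one_apply_ne hij] at h
      exact absurd rfl h

lemma int_pow (h : IsInt M M T) : ∀ m : ℕ, IsInt M M (T ^ m)
  | 0 => by rw [pow_zero]; exact int_one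
  | m + 1 => by rw [pow_succ]; exact int_comp (int_pow h m) h

lemma int_smul (h : IsInt M M T) (c : ℂ) : IsInt M M (c • T) where
  e := by rw [smul_mul_assoc, h.e, mul_smul_comm]
  f := by rw [smul_mul_assoc, h.f, mul_smul_comm]
  k i j hij := h.k i j fun h0 => hij (by rw [Matrix.smul_apply, h0, smul_zero])

lemma comm_inv (h1 : T' * T = 1) (h2 : T * T' = 1) {A : Matrix ι ι ℂ} (h : T * A = A * T) :
    T' * A = A * T' := by
  calc T' * A = T' * A * (T * T') := by rw [h2, mul_one]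
    _ = T' * (A * T) * T' := by simp only [mul_assoc]
    _ = T' * (T * A) * T' := by rw [h]
    _ = (T' * T) * A * T' := by simp only [mul_assoc]
    _ = A * T' := by rw [h1, one_mul]

lemma int_inv (h : IsInt M M T) (h1 : T' * T = 1) (h2 : T * T' = 1) : IsInt M M T' where
  e := comm_inv h1 h2 h.e
  f := comm_inv h1 h2 h.f
  k i j hij := by
    have h3 : T * diagonal (fun i => (M.wt i : ℂ)) = diagonal (fun i => (M.wt i : ℂ)) * T := by
      ext a b
      rw [mul_diagonal, diagonal_mul]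
      by_cases h0 : T a b = 0
      · rw [h0, zero_mul, mul_zero]
      · rw [h.k a b h0, mul_comm]
    have h4 := congrFun (congrFun (comm_inv h1 h2 h3) i) j
    rw [mul_diagonal, diagonal_mul, mul_comm] at h4
    exact_mod_cast (mul_right_cancel₀ hij h4).symm

end gen

variable {N : ℕ}

lemma int_C2 {v : ℂ} {T : Matrix (Fin N × Fin N) (Fin N × Fin N) ℂ}
    (h : IsInt (W v N) (W v N) T) : IsInt (MM v N 2) (MM v N 2) (C2 T) where
  e := by
    rw [MM2_E]
    unfold C2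
    rw [Matrix.submatrix_mul_equiv, Matrix.submatrix_mul_equiv, h.e]
  f := by
    rw [MM2_F]
    unfold C2
    rw [Matrix.submatrix_mul_equiv, Matrix.submatrix_mul_equiv, h.f]
  k i j hij := by
    rw [MM2_wt, MM2_wt]
    exact h.k _ _ hij

lemma int_cx {u : ℂ} (hu : Gen u) (σ : Bool) :
    IsInt (W (u ^ 2) N) (W (u ^ 2) N) (cx σ N (u ^ 2)) := by
  have hv := gen_v hu
  have hV : IsMod (u ^ 2) (irr (u ^ 2) N) := Pool.Agent.H345J.irr_mod hv N
  have hR : IsInt (W (u ^ 2) N) (W (u ^ 2) N) (Rh u (irr (u ^ 2) N) (irr (u ^ 2) N)) :=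
    Pool.Agent.H345J.taskInt u hu _ _ _ _ hV hV
  have hi := Pool.Agent.H345J.taskInv u hu _ _ _ _ hV hV
  cases σ
  · change IsInt (W (u ^ 2) N) (W (u ^ 2) N) (crossN N (u ^ 2))
    rw [(Pool.Agent.H559R3.J.taskCross u hu N).2]
    exact int_smul (int_inv hR hi.1 hi.2) _
  · change IsInt (W (u ^ 2) N) (W (u ^ 2) N) (crossP N (u ^ 2))
    rw [(Pool.Agent.H559R3.J.taskCross u hu N).1]
    exact int_smul hR _

lemma int_BB {u : ℂ} (hu : Gen u) (k : ℕ) :
    IsInt (MM (u ^ 2) N k) (MM (u ^ 2) N k) (BB (u ^ 2) (crossP N (u ^ 2)) k) := by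
  have hv := gen_v hu
  have hM := MM_mod hv N k
  have hV : IsMod (u ^ 2) (irr (u ^ 2) N) := Pool.Agent.H345J.irr_mod hv N
  have hJ : IsInt (tens (u ^ 2) (MM (u ^ 2) N k) (irr (u ^ 2) N))
      (tens (u ^ 2) (MM (u ^ 2) N k) (irr (u ^ 2) N))
      (Rh u (irr (u ^ 2) N) (MM (u ^ 2) N k) * Rh u (MM (u ^ 2) N k) (irr (u ^ 2) N)) :=
    int_comp (Pool.Agent.H345J.taskInt u hu _ _ _ _ hV hM)
      (Pool.Agent.H345J.taskInt u hu _ _ _ _ hM hV)
  have hP := Pool.Agent.H550R3.Jones.taskPtr550 (u ^ 2) hv _ _ _ _ hM hV _ hJ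
  rw [← Jop_braid hu N k] at hP
  rw [(Pool.Agent.H559R3.J.taskCross u hu N).1, BB_smul]
  exact int_smul (int_smul hP _) _

lemma int_X2 {u : ℂ} (hu : Gen u) (σ : Bool) (m p : ℕ) :
    IsInt (MM (u ^ 2) N 2) (MM (u ^ 2) N 2) (X2 σ N m p (u ^ 2)) :=
  int_comp (int_pow (int_C2 (int_cx hu σ)) m) (int_pow (int_BB hu 2) p)

lemma eq_rt {f g : ℂ → ℂ} (hf : ContinuousAt f (rt N)) (hg : ContinuousAt g (rt N))
    (h : ∀ u, Gen u → f (u ^ 2) = g (u ^ 2)) : f (rt N) = g (rt N) := by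
  have h1 : Tendsto f (Fl N) (𝓝 (f (rt N))) := hf.tendsto.mono_left (Fl_le N)
  have h2 : Tendsto g (Fl N) (𝓝 (g (rt N))) := hg.tendsto.mono_left (Fl_le N)
  refine tendsto_nhds_unique_of_eventuallyEq h1 h2 ?_
  filter_upwards [Fl_gen N] with v ⟨u, hu, hv⟩
  rw [hv, h u hu]

/-- the matrix of the region at a parameter -/
noncomputable def Xv (N : ℕ) (σ : Bool) (m : ℕ) (v : ℂ) : Matrix (Fin N × Fin N) (Fin N × Fin N) ℂ :=
  (X2 σ N m 1 v).submatrix (e2 N).symm (e2 N).symm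

lemma Xv_E {u : ℂ} (hu : Gen u) (σ : Bool) (m : ℕ) :
    Xv N σ m (u ^ 2) * (W (u ^ 2) N).E = (W (u ^ 2) N).E * Xv N σ m (u ^ 2) := by
  have h := (int_X2 (N := N) hu σ m 1).e
  rw [MM2_E] at h
  have h1 : (W (u ^ 2) N).E = ((W (u ^ 2) N).E.submatrix (e2 N) (e2 N)).submatrix
      (e2 N).symm (e2 N).symm := by
    rw [Matrix.submatrix_submatrix]
    simp
  rw [h1]
  unfold Xv
  rw [Matrix.submatrix_mul_equiv, Matrix.submatrix_mul_equiv, h]

lemma Xv_F {u : ℂ} (hu : Gen u) (σ : Bool) (m : ℕ) :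
    Xv N σ m (u ^ 2) * (W (u ^ 2) N).F = (W (u ^ 2) N).F * Xv N σ m (u ^ 2) := by
  have h := (int_X2 (N := N) hu σ m 1).f
  rw [MM2_F] at h
  have h1 : (W (u ^ 2) N).F = ((W (u ^ 2) N).F.submatrix (e2 N) (e2 N)).submatrix
      (e2 N).symm (e2 N).symm := by
    rw [Matrix.submatrix_submatrix]
    simp
  rw [h1]
  unfold Xv
  rw [Matrix.submatrix_mul_equiv, Matrix.submatrix_mul_equiv, h]

lemma Xv_DA (σ : Bool) (m : ℕ) : DA (fun v => Xv N σ m v) (rt N) := fun i j =>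
  X2_diff (rt0 N) (fun k h0 h => brne h0 h) σ m 1 _ _

/-- JOB XC -/
theorem task_XC : S_XC := by
  intro N hN σ m
  have hX : Xm N σ m = Xv N σ m (rt N) := rfl
  refine ⟨?_, ?_, ?_⟩
  · rw [hX]
    ext i j
    exact eq_rt (f := fun v => (Xv N σ m v * (W v N).E) i j)
      (g := fun v => ((W v N).E * Xv N σ m v) i j)
      (((Xv_DA σ m).mul (W_E_diff (rt0 N) N)) i j).continuousAt
      (((W_E_diff (rt0 N) N).mul (Xv_DA σ m)) i j).continuousAt
      (fun u hu => congrFun (congrFun (Xv_E hu σ m) i) j)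
  · rw [hX]
    ext i j
    exact eq_rt (f := fun v => (Xv N σ m v * (W v N).F) i j)
      (g := fun v => ((W v N).F * Xv N σ m v) i j)
      (((Xv_DA σ m).mul (W_F_diff (rt0 N) N)) i j).continuousAt
      (((W_F_diff (rt0 N) N).mul (Xv_DA σ m)) i j).continuousAt
      (fun u hu => congrFun (congrFun (Xv_F hu σ m) i) j)
  · intro p q hpq
    by_contra hne
    apply hpq
    have h := X2_entry (N := N) σ m ((e2 N).symm p) ((e2 N).symm q)
    rw [Equiv.apply_symm_apply, Equiv.apply_symm_apply, if_neg hne] at h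
    exact h

end Pool.Agent.Q299.FAL
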