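import Pool.Agent.Q299.FAL.Bq

/-!
# Job XD of project FAL: the entries at `(0, x)`, `(0, x)`
-/

set_option autoImplicit false

namespace Pool.Agent.Q299.FAL

open Finset
open Pool.Agent.W719.BS (D D_pos D_refl)
open Pool.Agent.W715.VC (rt)
open Pool.Agent.Q191.LB (sg)
open Pool.Agent.Q191.SH (e2)
open Pool.Agent.Q191.TW (cs cs_add cs_zero cs_ne cs_period cs_neg)
open Pool.Agent.Q99.FW
open Pool.Agent.Q99.FAL

variable {N : ℕ}

lemma TZ_one (hN : 0 < N) : TZ N 0 (0 - 0) ((N : ℤ) - 1 - 0) = 1 := by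
  have h := bq_nat (N := N) (n := 0) (k := 0) le_rfl hN
  unfold bq at h
  have h0 : D N 0 = 1 := by unfold D; simp
  rw [h0] at h
  simpa using h

/-- a term of the entry -/
lemma tm_x (hN : 0 < N) (w : ℝ) {x : ℕ} (hx : x < N) (l i : ℕ) :
    ∑ p ∈ range N, tm w N 0 x 0 x l i p =
      (((N : ℤ) + i - (2 * x + 1 - N - i) : ℤ) : ℂ) *
        (cs N (w * (((i : ℤ) - (2 * x + 1 - N - i) : ℤ) : ℝ) ^ 2 / 4) * cs N (-((l : ℝ) * (N - 1)))) *
        ((bq N l i * bq N l (2 * x + 1 - N - i) * (bq N x l * bq N x l) : ℝ) : ℂ) := by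
  rw [sum_eq_single 0]
  · unfold tm T6
    have e1 : jj N 0 x i = 2 * x + 1 - N - i := by unfold jj; ring
    have e2 : rr 0 x l ((0 : ℕ) : ℤ) = x - l := by unfold rr; push_cast; ring
    have e3 : qe N 0 x 0 x l ((0 : ℕ) : ℤ) = -(l * (N - 1)) := by
      unfold qe
      rw [e2]
      push_cast
      ring
    rw [e1, e2, e3, TZ_rot ((l : ℤ) - i), TZ_rot ((l : ℤ) - (2 * x + 1 - N - i))]
    have e4 : TZ N ((0 : ℕ) : ℤ) (0 - ((0 : ℕ) : ℤ)) ((N : ℤ) - 1 - 0) = 1 := TZ_one hN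
    have e5 : TZ N ((x : ℤ) - l) (x - (x - l)) ((N : ℤ) - 1 - x) = bq N x l := bq_symm (x : ℤ) l
    have e6 : TZ N (i : ℤ) ((l : ℤ) - i) ((N : ℤ) - 1 - l) = bq N l i := rfl
    have e7 : TZ N (2 * x + 1 - N - i : ℤ) ((l : ℤ) - (2 * x + 1 - N - i)) ((N : ℤ) - 1 - l) =
      bq N l (2 * x + 1 - N - i) := rfl
    rw [e4, e5, e6, e7, cs_add]
    congr 1
    · congr 1
      congr 1
      push_cast
      ring_nf
    · push_cast
      ring
  · intro p _ hp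
    unfold tm T6
    have : TZ N (p : ℤ) (0 - p) ((N : ℤ) - 1 - 0) = 0 := TZ_zero (by omega)
    rw [this]
    simp
  · intro h
    exact absurd (mem_range.2 hN) h

/-- the sum over the second label -/
lemma sum_i (hN : 0 < N) (w : ℝ) {x : ℕ} (hx : x < N) (l : ℕ) :
    ∑ i ∈ range N, ∑ p ∈ range N, tm w N 0 x 0 x l i p =
      N * ∑ n ∈ range N, cs N (w * (2 * (n : ℝ) - (N - 1)) ^ 2 / 4) * (cs N (-((l : ℝ) * (N - 1))) *
        ((bq N l ((x : ℤ) - n) * bq N l ((x : ℤ) - (N - 1 - n)) * (bq N x l * bq N x l) : ℝ) : ℂ)) := by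
  rw [sum_congr rfl fun i _ => tm_x hN w hx l i]
  -- restriction to i ≤ x
  have h1 : ∑ i ∈ range N, (((N : ℤ) + i - (2 * x + 1 - N - i) : ℤ) : ℂ) *
        (cs N (w * (((i : ℤ) - (2 * x + 1 - N - i) : ℤ) : ℝ) ^ 2 / 4) * cs N (-((l : ℝ) * (N - 1)))) *
        ((bq N l i * bq N l (2 * x + 1 - N - i) * (bq N x l * bq N x l) : ℝ) : ℂ) =
      ∑ i ∈ range (x + 1), (((N : ℤ) + i - (2 * x + 1 - N - i) : ℤ) : ℂ) *
        (cs N (w * (((i : ℤ) - (2 * x + 1 - N - i) : ℤ) : ℝ) ^ 2 / 4) * cs N (-((l : ℝ) * (N - 1)))) *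
        ((bq N l i * bq N l (2 * x + 1 - N - i) * (bq N x l * bq N x l) : ℝ) : ℂ) := by
    symm
    refine sum_subset (range_subset_range.2 (by omega)) fun i _ hi => ?_
    rw [mem_range] at hi
    rw [bq_zero (n := (l : ℤ)) (k := 2 * x + 1 - N - i) (by omega)]
    simp
  rw [h1, ← sum_range_reflect]
  -- the terms in `n`
  set B : ℕ → ℂ := fun n => cs N (w * (2 * (n : ℝ) - (N - 1)) ^ 2 / 4) * (cs N (-((l : ℝ) * (N - 1))) *
        ((bq N l ((x : ℤ) - n) * bq N l ((x : ℤ) - (N - 1 - n)) * (bq N x l * bq N x l) : ℝ) : ℂ)) with hB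
  have h2 : ∀ n ∈ range (x + 1), (((N : ℤ) + ((x + 1 - 1 - n : ℕ) : ℤ) -
        (2 * x + 1 - N - ((x + 1 - 1 - n : ℕ) : ℤ)) : ℤ) : ℂ) *
        (cs N (w * ((((x + 1 - 1 - n : ℕ) : ℤ) - (2 * x + 1 - N - ((x + 1 - 1 - n : ℕ) : ℤ)) : ℤ) : ℝ) ^ 2 / 4) *
          cs N (-((l : ℝ) * (N - 1)))) *
        ((bq N l ((x + 1 - 1 - n : ℕ) : ℤ) * bq N l (2 * x + 1 - N - ((x + 1 - 1 - n : ℕ) : ℤ)) *
          (bq N x l * bq N x l) : ℝ) : ℂ) = ((N : ℂ) + ((N : ℂ) - 1 - 2 * n)) * B n := by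
    intro n hn
    rw [mem_range] at hn
    have e0 : ((x + 1 - 1 - n : ℕ) : ℤ) = (x : ℤ) - n := by omega
    rw [e0]
    have e1 : (2 * x + 1 - N - ((x : ℤ) - n) : ℤ) = (x : ℤ) - (N - 1 - n) := by ring
    rw [e1, hB]
    simp only
    have e2 : ((((x : ℤ) - n - ((x : ℤ) - (N - 1 - n)) : ℤ)) : ℝ) ^ 2 = (2 * (n : ℝ) - (N - 1)) ^ 2 := by
      push_cast
      ring
    rw [e2]
    have e3 : ((((N : ℤ) + ((x : ℤ) - n) - ((x : ℤ) - (N - 1 - n)) : ℤ)) : ℂ) =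
        (N : ℂ) + ((N : ℂ) - 1 - 2 * n) := by
      push_cast
      ring
    rw [e3]
    ring
  rw [sum_congr rfl h2]
  have h3 : ∑ n ∈ range (x + 1), ((N : ℂ) + ((N : ℂ) - 1 - 2 * n)) * B n =
      ∑ n ∈ range N, ((N : ℂ) + ((N : ℂ) - 1 - 2 * n)) * B n := by
    refine sum_subset (range_subset_range.2 (by omega)) fun n _ hn => ?_
    rw [mem_range] at hn
    have : B n = 0 := by
      rw [hB]
      simp only
      rw [bq_zero (n := (l : ℤ)) (k := (x : ℤ) - n) (by omega)]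
      simp
    rw [this, mul_zero]
  rw [h3]
  have h4 : ∑ n ∈ range N, ((N : ℂ) - 1 - 2 * n) * B n = 0 := by
    have h5 : ∀ n ∈ range N, ((N : ℂ) - 1 - 2 * ((N - 1 - n : ℕ) : ℂ)) * B (N - 1 - n) =
        -(((N : ℂ) - 1 - 2 * n) * B n) := by
      intro n hn
      rw [mem_range] at hn
      have e1 : ((N - 1 - n : ℕ) : ℂ) = (N : ℂ) - 1 - n := by
        have : ((N - 1 - n : ℕ) : ℤ) = (N : ℤ) - 1 - n := by omega
        exact_mod_cast congrArg (fun z : ℤ => (z : ℂ)) this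
      have e2 : ((N - 1 - n : ℕ) : ℝ) = (N : ℝ) - 1 - n := by
        have : ((N - 1 - n : ℕ) : ℤ) = (N : ℤ) - 1 - n := by omega
        exact_mod_cast congrArg (fun z : ℤ => (z : ℝ)) this
      have e3 : ((N - 1 - n : ℕ) : ℤ) = (N : ℤ) - 1 - n := by omega
      have e4 : B (N - 1 - n) = B n := by
        rw [hB]
        simp only
        rw [e2, e3]
        have e5 : (x : ℤ) - (N - 1 - ((N : ℤ) - 1 - n)) = (x : ℤ) - n := by ring
        rw [e5, mul_comm (bq N l ((x : ℤ) - (N - 1 - n))) (bq N l ((x : ℤ) - n))]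
        congr 2
        ring_nf
      rw [e4, e1]
      ring
    have h6 := sum_range_reflect (fun n : ℕ => ((N : ℂ) - 1 - 2 * (n : ℂ)) * B n) N
    rw [sum_congr rfl h5, sum_neg_distrib] at h6
    have h7 : (2 : ℂ) * ∑ n ∈ range N, ((N : ℂ) - 1 - 2 * n) * B n = 0 := by
      linear_combination -h6
    exact (mul_eq_zero.1 h7).resolve_left (by norm_num)
  calc ∑ n ∈ range N, ((N : ℂ) + ((N : ℂ) - 1 - 2 * n)) * B n =
      N * ∑ n ∈ range N, B n + ∑ n ∈ range N, ((N : ℂ) - 1 - 2 * n) * B n := by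
        rw [mul_sum, ← sum_add_distrib]
        exact sum_congr rfl fun n _ => by ring
    _ = _ := by rw [h4, add_zero]

/-- the sum over the first label -/
lemma sum_l (hQ : S_QV) (hN : 0 < N) {x n : ℕ} (hx : x < N) (hn : n < N) :
    ∑ l ∈ range N, cs N (-((l : ℝ) * (N - 1))) *
        ((bq N l ((x : ℤ) - n) * bq N l ((x : ℤ) - (N - 1 - n)) * (bq N x l * bq N x l) : ℝ) : ℂ) =
      cs N ((n : ℝ) * (N - 1 - n) - ((N : ℝ) - 1) * x) *
        ((bq N x n * bq N x (N - 1 - n) : ℝ) : ℂ) := by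
  obtain ⟨k, hk⟩ : ∃ k : ℕ, n + k + 1 = N := ⟨N - 1 - n, by omega⟩
  have ek : (N : ℤ) - 1 - n = (k : ℤ) := by omega
  have ek' : (N : ℝ) - 1 - n = (k : ℝ) := by
    exact_mod_cast congrArg (fun z : ℤ => (z : ℝ)) ek
  rw [ek, ek']
  have h1 : ∀ l ∈ range N, cs N (-((l : ℝ) * (N - 1))) *
        ((bq N l ((x : ℤ) - n) * bq N l ((x : ℤ) - k) * (bq N x l * bq N x l) : ℝ) : ℂ) =
      ((bq N x n * bq N x k : ℝ) : ℂ) * (cs N (-((l : ℝ) * (N - 1))) *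
        ((bq N n ((x : ℤ) - l) * bq N k ((x : ℤ) - l) : ℝ) : ℂ)) := by
    intro l hl
    rw [mem_range] at hl
    have a1 := bq_mul hx hl hn
    have a2 := bq_mul (n := k) hx hl (by omega)
    have a3 : bq N l ((x : ℤ) - n) * bq N l ((x : ℤ) - k) * (bq N x l * bq N x l) =
        (bq N x n * bq N x k) * (bq N n ((x : ℤ) - l) * bq N k ((x : ℤ) - l)) := by
      linear_combination (bq N x l * bq N l ((x : ℤ) - k)) * a1 +
        (bq N x n * bq N n ((x : ℤ) - l)) * a2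
    rw [a3]
    push_cast
    ring
  rw [sum_congr rfl h1, ← mul_sum]
  by_cases hnx : n ≤ x
  swap
  · rw [bq_zero (n := (x : ℤ)) (k := (n : ℤ)) (by omega)]
    simp
  have h2 : ∑ l ∈ range N, cs N (-((l : ℝ) * (N - 1))) *
        ((bq N n ((x : ℤ) - l) * bq N k ((x : ℤ) - l) : ℝ) : ℂ) =
      ∑ l ∈ range (x + 1), cs N (-((l : ℝ) * (N - 1))) *
        ((bq N n ((x : ℤ) - l) * bq N k ((x : ℤ) - l) : ℝ) : ℂ) := by
    symm
    refine sum_subset (range_subset_range.2 (by omega)) fun l _ hl => ?_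
    rw [mem_range] at hl
    rw [bq_zero (n := (n : ℤ)) (k := (x : ℤ) - l) (by omega)]
    simp
  rw [h2, ← sum_range_reflect]
  have h3 : ∀ a ∈ range (x + 1), cs N (-(((x + 1 - 1 - a : ℕ) : ℝ) * (N - 1))) *
        ((bq N n ((x : ℤ) - ((x + 1 - 1 - a : ℕ) : ℤ)) *
          bq N k ((x : ℤ) - ((x + 1 - 1 - a : ℕ) : ℤ)) : ℝ) : ℂ) =
      cs N (-(((N : ℝ) - 1) * x)) * (cs N (((N : ℝ) - 1) * a) *
        ((bq N n a * bq N k ((k : ℤ) - a) : ℝ) : ℂ)) := by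
    intro a ha
    rw [mem_range] at ha
    have e0 : (x : ℤ) - ((x + 1 - 1 - a : ℕ) : ℤ) = a := by omega
    have e1 : ((x + 1 - 1 - a : ℕ) : ℤ) = (x : ℤ) - a := by omega
    have e2 : ((x + 1 - 1 - a : ℕ) : ℝ) = (x : ℝ) - a := by
      exact_mod_cast congrArg (fun z : ℤ => (z : ℝ)) e1
    rw [e0, e2, bq_symm, ← mul_assoc, ← cs_add]
    congr 2
    ring
  rw [sum_congr rfl h3, ← mul_sum]
  have h4 : ∑ a ∈ range (x + 1), cs N (((N : ℝ) - 1) * a) *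
        ((bq N n a * bq N k ((k : ℤ) - a) : ℝ) : ℂ) =
      ∑ a ∈ range N, cs N (((N : ℝ) - 1) * a) *
        ((bq N n a * bq N k ((k : ℤ) - a) : ℝ) : ℂ) := by
    refine sum_subset (range_subset_range.2 (by omega)) fun a _ ha => ?_
    rw [mem_range] at ha
    rw [bq_zero (n := (n : ℤ)) (k := (a : ℤ)) (by omega)]
    simp
  rw [h4, hQ N hN k n k (by omega) (by omega), mul_comm, ← cs_add]
  congr 2
  ring

/-- JOB XD -/
theorem task_XD : S_XD := by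
  intro hQ N hN σ m x
  have h := X2_entry (N := N) σ m ((e2 N).symm (⟨0, hN⟩, x)) ((e2 N).symm (⟨0, hN⟩, x))
  rw [Equiv.apply_symm_apply, if_pos rfl] at h
  have hX : Xm N σ m (⟨0, hN⟩, x) (⟨0, hN⟩, x) =
      Kg N (sg σ) ^ m * K2 N * S2 (sg σ * m) N ((0 : ℕ) : ℤ) ((x : ℕ) : ℤ) ((0 : ℕ) : ℤ)
        ((x : ℕ) : ℤ) := h
  rw [hX]
  congr 1
  have hx := x.2
  unfold S2
  rw [if_pos (by omega), Nat.cast_zero]
  unfold SS
  rw [sum_congr rfl fun l _ => sum_i hN (sg σ * m) hx l, ← mul_sum, sum_comm]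
  congr 1
  refine sum_congr rfl fun n hn => ?_
  rw [mem_range] at hn
  rw [← mul_sum, sum_l hQ hN hx hn]
  ring

end Pool.Agent.Q299.FAL
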